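import Pool.Agent.Wil.Basic

set_option autoImplicit false

/-! Pages A and B: the semisimple dimension of a finite dimensional algebra. -/

namespace Pool.Agent.Wnx

open Pool.Agent.Wil MonoidAlgebra

/-- The dimension of `A / J(A)` over `k`. -/
noncomputable def ssA (k A : Type) [Field k] [Ring A] [Algebra k A] : ℕ :=
  Module.finrank k (A ⧸ (Ring.jacobson A).restrictScalars k)

theorem ssDim_eq (k G : Type) [Field k] [Group G] : ssDim k G = ssA k (MonoidAlgebra k G) := rfl

section
variable {k A B : Type} [Field k] [Ring A] [Algebra k A] [Ring B] [Algebra k B]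
  [Module.Finite k A] [Module.Finite k B]

theorem art (k A : Type) [Field k] [Ring A] [Algebra k A] [Module.Finite k A] :
    IsArtinianRing A := IsArtinianRing.of_finite k A

theorem ssA_inj (F : A →ₐ[k] B) (hinj : Function.Injective F) : ssA k A ≤ ssA k B := by
  have := art k B
  have hle : Ideal.comap F.toRingHom (Ring.jacobson B) ≤ Ring.jacobson A := by
    apply nil_le_jacobson
    intro x hx
    obtain ⟨n, hn⟩ := nilpotent_of_mem_jacobson (Ideal.mem_comap.1 hx)
    refine ⟨n, hinj ?_⟩
    rw [map_pow, map_zero]
    exact hn
  set U := (Ring.jacobson B).restrictScalars k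
  set U' := (Ring.jacobson A).restrictScalars k
  have hle' : Submodule.comap F.toLinearMap U ≤ U' := fun x hx => hle hx
  have h1 : Module.finrank k (A ⧸ U') ≤ Module.finrank k (A ⧸ Submodule.comap F.toLinearMap U) := by
    apply LinearMap.finrank_le_finrank_of_surjective (f := Submodule.factor hle')
    exact Submodule.factor_surjective hle'
  have h2 : Module.finrank k (A ⧸ Submodule.comap F.toLinearMap U) ≤ Module.finrank k (B ⧸ U) := by
    apply LinearMap.finrank_le_finrank_of_injective
      (f := Submodule.mapQ (Submodule.comap F.toLinearMap U) U F.toLinearMap le_rfl)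
    rw [← LinearMap.ker_eq_bot, Submodule.ker_mapQ]
    rw [Submodule.mkQ_map_self]
  exact h1.trans h2

theorem ssA_surj (F : A →ₐ[k] B) (hsur : Function.Surjective F) : ssA k B ≤ ssA k A := by
  have : RingHomSurjective (F.toRingHom) := ⟨hsur⟩
  have hle : Ring.jacobson A ≤ Ideal.comap F.toRingHom (Ring.jacobson B) :=
    Ring.le_comap_jacobson F.toRingHom
  set U := (Ring.jacobson A).restrictScalars k
  set U' := (Ring.jacobson B).restrictScalars k
  have hle' : U ≤ Submodule.comap F.toLinearMap U' := fun x hx => hle hx
  apply LinearMap.finrank_le_finrank_of_surjective (f := Submodule.mapQ U U' F.toLinearMap hle')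
  intro y
  obtain ⟨y, rfl⟩ := Submodule.mkQ_surjective _ y
  obtain ⟨x, rfl⟩ := hsur y
  exact ⟨Submodule.mkQ _ x, rfl⟩

variable {ι : Type} [Fintype ι] [DecidableEq ι]

/-- the matrices with entries in the radical -/
def matJ (A : Type) [Ring A] (ι : Type) [Fintype ι] [DecidableEq ι] : Ideal (Matrix ι ι A) where
  carrier := {x | ∀ i j, x i j ∈ Ring.jacobson A}
  add_mem' := fun hx hy i j => by
    rw [Matrix.add_apply]; exact Ideal.add_mem _ (hx i j) (hy i j)
  zero_mem' := fun i j => by rw [Matrix.zero_apply]; exact Ideal.zero_mem _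
  smul_mem' := fun c x hx i j => by
    rw [smul_eq_mul, Matrix.mul_apply]
    exact Ideal.sum_mem _ fun l _ => Ideal.mul_mem_left _ _ (hx l j)

theorem matJ_pow (n : ℕ) (x : Matrix ι ι A) (hx : x ∈ matJ A ι) :
    ∀ i j, (x ^ n) i j ∈ (Ring.jacobson A) ^ n := by
  induction n with
  | zero =>
    intro i j
    rw [Submodule.pow_zero, Ideal.one_eq_top]; trivial
  | succ n ih =>
    intro i j
    rw [pow_succ, Matrix.mul_apply, Submodule.pow_succ]
    exact Ideal.sum_mem _ fun l _ => Ideal.mul_mem_mul (ih i l) (hx l j)

theorem matJ_le (k : Type) [Field k] [Algebra k A] [Module.Finite k A] :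
    matJ A ι ≤ Ring.jacobson (Matrix ι ι A) := by
  have := art k A
  apply nil_le_jacobson
  intro x hx
  obtain ⟨n, hn⟩ := IsArtinianRing.isNilpotent_jacobson_bot (R := A)
  rw [Ideal.jacobson_bot] at hn
  refine ⟨n, ?_⟩
  ext i j
  have h := matJ_pow n x hx i j
  rw [hn] at h
  rw [Matrix.zero_apply]
  simpa using h

theorem ssA_mat_le : ssA k (Matrix ι ι A) ≤ Fintype.card ι ^ 2 * ssA k A := by
  classical
  obtain ⟨v, hv⟩ := exists_span ((Ring.jacobson A).restrictScalars k)
  let w : (ι × ι) × Fin (ssA k A) → Matrix ι ι A := fun p => Matrix.single p.1.1 p.1.2 (v p.2)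
  have h := finrank_le_of_span ((Ring.jacobson (Matrix ι ι A)).restrictScalars k) w ?_
  · rw [Fintype.card_prod, Fintype.card_prod, Fintype.card_fin] at h
    rw [pow_two]
    exact h
  · rw [eq_top_iff]
    intro a _
    set T := Submodule.span k (Set.range w) ⊔ (Ring.jacobson (Matrix ι ι A)).restrictScalars k
    have h1 : ∀ (i j : ι) (b : A), Matrix.single i j b ∈ T := by
      intro i j b
      have hb : b ∈ Submodule.span k (Set.range v) ⊔ (Ring.jacobson A).restrictScalars k := by
        rw [hv]; trivial
      obtain ⟨y, hy, z, hz, rfl⟩ := Submodule.mem_sup.1 hb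
      rw [Matrix.single_add]
      clear hb
      refine Submodule.add_mem _ ?_ ?_
      · refine Submodule.mem_sup_left ?_
        induction hy using Submodule.span_induction with
        | mem y hy =>
          obtain ⟨t, rfl⟩ := hy
          exact Submodule.subset_span ⟨((i, j), t), rfl⟩
        | zero => rw [Matrix.single_zero]; exact Submodule.zero_mem _
        | add x y _ _ hx hy => rw [Matrix.single_add]; exact Submodule.add_mem _ hx hy
        | smul r x _ hx =>
          rw [← Matrix.smul_single]
          exact Submodule.smul_mem _ _ hx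
      · refine Submodule.mem_sup_right ?_
        refine matJ_le (A := A) (ι := ι) k ?_
        intro i' j'
        rw [Matrix.single_apply]
        split_ifs
        · exact hz
        · exact Ideal.zero_mem _
    rw [Matrix.matrix_eq_sum_single a]
    exact Submodule.sum_mem _ fun i _ => Submodule.sum_mem _ fun j _ => h1 i j _

theorem le_matJ (k : Type) [Field k] [Algebra k A] [Module.Finite k A] :
    Ring.jacobson (Matrix ι ι A) ≤ matJ A ι := by
  classical
  have := art k A
  have hM : IsArtinianRing (Matrix ι ι A) := art k (Matrix ι ι A)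
  intro x hx i j
  let I : Ideal A :=
    { carrier := {a | Matrix.single i i a ∈ Ring.jacobson (Matrix ι ι A)}
      add_mem' := fun {a b} ha hb => by
        have : Matrix.single i i (a + b) ∈ Ring.jacobson (Matrix ι ι A) := by
          rw [Matrix.single_add]
          exact Ideal.add_mem _ ha hb
        exact this
      zero_mem' := by
        have : Matrix.single i i (0 : A) ∈ Ring.jacobson (Matrix ι ι A) := by
          rw [Matrix.single_zero]
          exact Ideal.zero_mem _
        exact this
      smul_mem' := fun c a ha => by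
        have : Matrix.single i i (c • a) ∈ Ring.jacobson (Matrix ι ι A) := by
          have ha' : Matrix.single i i a ∈ Ring.jacobson (Matrix ι ι A) := ha
          have h := Ideal.mul_mem_left _ (Matrix.single i i c) ha'
          rwa [Matrix.single_mul_single_same] at h
        exact this }
  have hI : I ≤ Ring.jacobson A := by
    apply nil_le_jacobson
    intro a ha
    have ha' : Matrix.single i i a ∈ Ring.jacobson (Matrix ι ι A) := ha
    obtain ⟨n, hn⟩ := nilpotent_of_mem_jacobson ha'
    have hp : ∀ n : ℕ, (Matrix.single i i a) ^ (n + 1) = Matrix.single i i (a ^ (n + 1)) := by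
      intro n
      induction n with
      | zero => simp
      | succ n ih => rw [pow_succ, ih, Matrix.single_mul_single_same, ← pow_succ]
    refine ⟨n + 1, ?_⟩
    have h1 := hp n
    rw [pow_succ, hn, zero_mul] at h1
    have h2 := congrFun (congrFun h1 i) i
    simpa using h2.symm
  apply hI
  have h1 : Matrix.single i i (x i j) = Matrix.single i i 1 * x * Matrix.single j i 1 := by
    rw [Matrix.single_mul_mul_single]
    simp
  have h2 : Matrix.single i i (x i j) ∈ Ring.jacobson (Matrix ι ι A) := by
    rw [h1]
    exact Ideal.mul_mem_right _ _ (Ideal.mul_mem_left _ _ hx)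
  exact h2

theorem ssA_mat_ge : Fintype.card ι ^ 2 * ssA k A ≤ ssA k (Matrix ι ι A) := by
  classical
  let U := (Ring.jacobson A).restrictScalars k
  let F : Matrix ι ι A →ₗ[k] (ι × ι → A ⧸ U) :=
    LinearMap.pi fun p => U.mkQ ∘ₗ (Matrix.entryLinearMap k A p.1 p.2)
  have hF : ∀ x ∈ (Ring.jacobson (Matrix ι ι A)).restrictScalars k, F x = 0 := by
    intro x hx
    ext p
    have := le_matJ (A := A) (ι := ι) k hx p.1 p.2
    simpa [F, U] using this
  have hF' : (Ring.jacobson (Matrix ι ι A)).restrictScalars k ≤ LinearMap.ker F := hF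
  have hs : Function.Surjective (Submodule.liftQ _ F hF') := by
    intro y
    choose z hz using fun p => Submodule.mkQ_surjective U (y p)
    refine ⟨Submodule.mkQ _ (Matrix.of fun i j => z (i, j)), ?_⟩
    ext p
    simp [F, ← hz p]
  have h := LinearMap.finrank_le_finrank_of_surjective hs
  rw [Module.finrank_pi_fintype] at h
  simp only [Finset.sum_const, Finset.card_univ, Fintype.card_prod, smul_eq_mul] at h
  rw [pow_two]
  exact h

end

end Pool.Agent.Wnx
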