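import Pool.Agent.Wnx.Alg

set_option autoImplicit false

/-! Pages C and D: the index lemma for arbitrary subgroups, the quotient lemma. -/

namespace Pool.Agent.Wnx

open Pool.Agent.Wil MonoidAlgebra

section idx
variable {k X : Type} [Field k] [Group X] (H : Subgroup X) [Fintype (X ⧸ H)]
  [DecidableEq (X ⧸ H)]

open Classical in
/-- left multiplication on the free right module `k[X]` over `k[H]` -/
noncomputable def lm (k : Type) [Field k] (g : X) :
    Matrix (X ⧸ H) (X ⧸ H) (MonoidAlgebra k H) :=
  Matrix.of fun c d => if h : (c.out)⁻¹ * g * d.out ∈ H then single ⟨_, h⟩ 1 else 0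

theorem lm_apply (g : X) (c d : X ⧸ H) (h : (c.out)⁻¹ * g * d.out ∈ H) :
    lm H k g c d = single ⟨_, h⟩ 1 := by
  rw [lm, Matrix.of_apply, dif_pos h]

theorem lm_apply_ne (g : X) (c d : X ⧸ H) (h : ¬ (c.out)⁻¹ * g * d.out ∈ H) :
    lm H k g c d = 0 := by
  rw [lm, Matrix.of_apply, dif_neg h]

theorem mem_iff (g : X) (c d : X ⧸ H) :
    (c.out)⁻¹ * g * d.out ∈ H ↔ c = g • d := by
  have h1 : (c.out)⁻¹ * g * d.out = (c.out)⁻¹ * (g * d.out) := by group
  rw [h1, ← QuotientGroup.eq, QuotientGroup.out_eq']
  have h2 : (QuotientGroup.mk (g * d.out) : X ⧸ H) = g • d := by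
    conv_rhs => rw [← QuotientGroup.out_eq' d]
    rfl
  rw [h2]

theorem lm_one : lm H k 1 = 1 := by
  ext1 c d
  rw [Matrix.one_apply]
  by_cases hcd : c = d
  · subst hcd
    have h : (c.out)⁻¹ * 1 * c.out ∈ H := by simp
    rw [lm_apply H 1 c c h, if_pos rfl, MonoidAlgebra.one_def]
    congr 1
    ext
    simp
  · rw [if_neg hcd, lm_apply_ne]
    rw [mem_iff, one_smul]
    exact hcd

theorem lm_mul (g g' : X) : lm H k (g * g') = lm H k g * lm H k g' := by
  ext1 c d
  rw [Matrix.mul_apply, Finset.sum_eq_single (g' • d)]
  · have h2 : ((g' • d).out)⁻¹ * g' * d.out ∈ H := (mem_iff H g' (g' • d) d).2 rfl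
    rw [lm_apply H g' (g' • d) d h2]
    by_cases hc : c = g • g' • d
    · have h1 := (mem_iff H g c (g' • d)).2 hc
      have h3 : (c.out)⁻¹ * (g * g') * d.out ∈ H := (mem_iff H (g * g') c d).2 (by
        rw [mul_smul]; exact hc)
      rw [lm_apply H g c _ h1, lm_apply H (g * g') c d h3, MonoidAlgebra.single_mul_single]
      congr 1
      · ext
        simp [mul_assoc]
      · rw [mul_one]
    · rw [lm_apply_ne H g c (g' • d) (fun h => hc ((mem_iff H g c (g' • d)).1 h)),
        lm_apply_ne H (g * g') c d (fun h => hc (by
          have := (mem_iff H (g * g') c d).1 h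
          rwa [mul_smul] at this)), zero_mul]
  · intro e _ he
    rw [lm_apply_ne H g' e d (fun h => he ((mem_iff H g' e d).1 h)), mul_zero]
  · intro h
    exact absurd (Finset.mem_univ _) h

/-- the embedding of `k[X]` into the matrices over `k[H]` -/
noncomputable def lmHom (k : Type) [Field k] : MonoidAlgebra k X →ₐ[k]
    Matrix (X ⧸ H) (X ⧸ H) (MonoidAlgebra k H) :=
  MonoidAlgebra.lift k _ X
    { toFun := lm H k
      map_one' := lm_one H
      map_mul' := lm_mul H }

theorem lmHom_coeff (a : MonoidAlgebra k X) (c d : X ⧸ H) (h : H) :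
    (lmHom H k a c d).coeff h = a.coeff (c.out * h * (d.out)⁻¹) := by
  classical
  induction a using MonoidAlgebra.induction_linear with
  | zero => simp
  | add a b ha hb => rw [map_add, Matrix.add_apply]; simp [ha, hb]
  | single g r =>
    have h1 : lmHom H k (single g r) = r • lm H k g := by
      rw [lmHom, MonoidAlgebra.lift_single]
      rfl
    rw [h1, Matrix.smul_apply]
    by_cases hg : (c.out)⁻¹ * g * d.out ∈ H
    · rw [lm_apply H g c d hg]
      by_cases hh : h = ⟨_, hg⟩
      · subst hh
        have : c.out * ((c.out)⁻¹ * g * d.out) * (d.out)⁻¹ = g := by group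
        simp [this]
      · have : ¬ (g = c.out * h * (d.out)⁻¹) := by
          intro he
          apply hh
          have h2 : (c.out)⁻¹ * g * d.out = h := by rw [he]; group
          exact Subtype.ext h2.symm
        have hh' : ¬ (⟨_, hg⟩ : H) = h := fun e => hh e.symm
        simp [MonoidAlgebra.coeff_single, this, hh']
    · rw [lm_apply_ne H g c d hg]
      have : ¬ (g = c.out * h * (d.out)⁻¹) := by
        intro he
        apply hg
        rw [he]
        have : (c.out)⁻¹ * (c.out * h * (d.out)⁻¹) * d.out = h := by group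
        rw [this]
        exact h.2
      simp [MonoidAlgebra.coeff_single, this]

theorem lmHom_inj : Function.Injective (lmHom H k) := by
  rw [injective_iff_map_eq_zero]
  intro a ha
  ext g
  let d : X ⧸ H := QuotientGroup.mk 1
  let c : X ⧸ H := g • d
  have hm : (c.out)⁻¹ * g * d.out ∈ H := (mem_iff H g c d).2 rfl
  have h := lmHom_coeff H a c d ⟨_, hm⟩
  rw [ha] at h
  have h2 : c.out * ((c.out)⁻¹ * g * d.out) * (d.out)⁻¹ = g := by group
  rw [h2] at h
  simpa using h.symm

end idx

theorem ssDim_le_index_sq {k X : Type} [Field k] [Group X] [Finite X] (H : Subgroup X) :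
    ssDim k X ≤ H.index ^ 2 * ssDim k H := by
  classical
  have : Fintype (X ⧸ H) := Fintype.ofFinite _
  have h := (ssA_inj (lmHom H k) (lmHom_inj H)).trans ssA_mat_le
  rw [Subgroup.index, Nat.card_eq_fintype_card]
  exact h

theorem ssDim_le_of_hom {k X G : Type} [Field k] [Group X] [Group G] [Finite X] [Finite G]
    (j : G →* X) (hj : Function.Injective j) (r : ℕ) (hr : Nat.card X = r * Nat.card G) :
    ssDim k X ≤ r ^ 2 * ssDim k G := by
  have h1 := ssDim_le_index_sq (k := k) j.range
  have h2 : Nat.card j.range = Nat.card G :=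
    Nat.card_congr (MonoidHom.ofInjective hj).symm.toEquiv
  have h3 : j.range.index = r := by
    have := j.range.index_mul_card
    rw [h2, hr] at this
    exact Nat.eq_of_mul_eq_mul_right Nat.card_pos this
  rw [h3] at h1
  refine h1.trans (Nat.mul_le_mul_left _ ?_)
  exact ssDim_le_of_injective (MonoidHom.ofInjective hj).symm.toMonoidHom
    (MonoidHom.ofInjective hj).symm.injective

/-- **Quotient lemma.** -/
theorem ssDim_quot {k X Q ι : Type} [Field k] [Group X] [Group Q] [Finite X] [Finite Q]
    [Fintype ι] [DecidableEq ι] (f : X →* Q) (hf : Function.Surjective f)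
    (ρ : X →* Matrix ι ι k)
    (hρ : Submodule.span k (Set.range (fun y : f.ker => ρ y)) = ⊤) :
    Fintype.card ι ^ 2 * ssDim k Q ≤ ssDim k X := by
  classical
  let P : X →* Matrix ι ι (MonoidAlgebra k Q) :=
    { toFun := fun g => Matrix.of fun i j => single (f g) (ρ g i j)
      map_one' := by
        ext1 i j
        simp only [map_one, Matrix.of_apply, Matrix.one_apply]
        split_ifs
        · rfl
        · simp
      map_mul' := fun g g' => by
        ext1 i j
        rw [Matrix.mul_apply, Matrix.of_apply, map_mul, map_mul, Matrix.mul_apply]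
        simp only [Matrix.of_apply, MonoidAlgebra.single_mul_single]
        exact map_sum (MonoidAlgebra.singleAddHom (f g * f g')) _ _ }
  let F := MonoidAlgebra.lift k (Matrix ι ι (MonoidAlgebra k Q)) X P
  have key : ∀ (g : X) (M : Matrix ι ι k), M ∈ Submodule.span k (Set.range (fun y : f.ker => ρ y)) →
      (Matrix.of fun i j => (single (f g) ((M * ρ g) i j) : MonoidAlgebra k Q)) ∈ F.range := by
    intro g M hM
    induction hM using Submodule.span_induction with
    | mem M hM =>
      obtain ⟨y, rfl⟩ := hM
      refine ⟨single ((y : X) * g) 1, ?_⟩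
      have hy : f y = 1 := y.2
      change F (single ((y : X) * g) 1) = _
      rw [MonoidAlgebra.lift_single, one_smul]
      change (Matrix.of fun i j => (single (f (y * g)) (ρ (y * g) i j) : MonoidAlgebra k Q)) = _
      rw [map_mul, map_mul, hy, one_mul]
    | zero =>
      have : (Matrix.of fun i j => (single (f g) (((0 : Matrix ι ι k) * ρ g) i j) :
          MonoidAlgebra k Q)) = 0 := by
        ext1 i j
        simp
      rw [this]
      exact Subalgebra.zero_mem _
    | add M M' _ _ h1 h2 =>
      have : (Matrix.of fun i j => (single (f g) (((M + M') * ρ g) i j) : MonoidAlgebra k Q)) =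
          (Matrix.of fun i j => (single (f g) ((M * ρ g) i j) : MonoidAlgebra k Q)) +
          (Matrix.of fun i j => (single (f g) ((M' * ρ g) i j) : MonoidAlgebra k Q)) := by
        ext1 i j
        rw [add_mul, Matrix.add_apply]
        simp only [Matrix.of_apply, Matrix.add_apply, MonoidAlgebra.single_add]
      rw [this]
      exact Subalgebra.add_mem _ h1 h2
    | smul r M _ h1 =>
      have : (Matrix.of fun i j => (single (f g) (((r • M) * ρ g) i j) : MonoidAlgebra k Q)) =
          r • (Matrix.of fun i j => (single (f g) ((M * ρ g) i j) : MonoidAlgebra k Q)) := by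
        ext1 i j
        rw [smul_mul_assoc, Matrix.smul_apply]
        simp only [Matrix.of_apply, Matrix.smul_apply, MonoidAlgebra.smul_single]
      rw [this]
      exact Subalgebra.smul_mem _ h1 r
  have hF : Function.Surjective F := by
    intro z
    have h1 : ∀ (i j : ι) (q : Q) (r : k), Matrix.single i j (single q r : MonoidAlgebra k Q) ∈ F.range := by
      intro i j q r
      obtain ⟨g, rfl⟩ := hf q
      have h2 := key g (Matrix.single i j r * ρ g⁻¹) (by rw [hρ]; trivial)
      rw [mul_assoc, ← map_mul, inv_mul_cancel, map_one, mul_one] at h2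
      convert h2 using 1
      ext1 i' j'
      rw [Matrix.of_apply, Matrix.single_apply, Matrix.single_apply]
      split_ifs
      · rfl
      · simp
    have h3 : ∀ (i j : ι) (a : MonoidAlgebra k Q), Matrix.single i j a ∈ F.range := by
      intro i j a
      induction a using MonoidAlgebra.induction_linear with
      | zero => rw [Matrix.single_zero]; exact Subalgebra.zero_mem _
      | add a b ha hb => rw [Matrix.single_add]; exact Subalgebra.add_mem _ ha hb
      | single q r => exact h1 i j q r
    have h4 : z ∈ F.range := by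
      rw [Matrix.matrix_eq_sum_single z]
      exact Subalgebra.sum_mem _ fun i _ => Subalgebra.sum_mem _ fun j _ => h3 i j _
    exact h4
  have h1 := ssA_surj F hF
  exact ssA_mat_ge.trans h1

end Pool.Agent.Wnx
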