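import Mathlib

set_option autoImplicit false

/-! Page J: subnormal series, minimal normal subgroups (Mathlib only). -/

namespace Pool.Agent.Wnx

open Equiv

/-- `1 = H 0 ⊲ H 1 ⊲ ... ⊲ H r = G`, and the factor `H (i+1) / H i` is isomorphic to the alternating group of
degree `d i` for all `i ∈ I`. -/
def Ser {G : Type} [Group G] (r : ℕ) (H : ℕ → Subgroup G) (I : Finset ℕ) (d : ℕ → ℕ) : Prop :=
  H 0 = ⊥ ∧ H r = ⊤ ∧
  (∀ i < r, H i ≤ H (i + 1) ∧ ((H i).subgroupOf (H (i + 1))).Normal) ∧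
  ∀ i ∈ I, i < r ∧ ∃ f : H (i + 1) →* alternatingGroup (Fin (d i)),
    Function.Surjective f ∧ f.ker = (H i).subgroupOf (H (i + 1))

-- BEGIN prod_iso
/-- PROOF. Take a finite set `J` of indices with `⨅ j ∈ J, K j = ⊥`, minimal for inclusion (`Finset.univ` works, so it exists). The homomorphism
`N →* ∀ j : J, N ⧸ K j` (`Pi.monoidHom`/`MonoidHom.pi` of the `QuotientGroup.mk'`) is injective. For `j ∈ J` let `L = ⨅ l ∈ J \ {j}, K l`, normal, not below `K j` (minimality), so
`L ⊔ K j = ⊤`: every class of `N ⧸ K j` has a representative in `L`, which is mapped to `Pi.mulSingle j _`; so all `Pi.mulSingle j y` are in the range, which is everything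
(`Subgroup.pi_mem_of_mulSingle_mem` or `Finset.noncommProd_mul_single`). -/
theorem prod_iso {N : Type} [Group N] {ι : Type} [Fintype ι] [DecidableEq ι]
    (K : ι → Subgroup N) [hK : ∀ i, (K i).Normal]
    (hmax : ∀ (i : ι) (L : Subgroup N), L.Normal → ¬ L ≤ K i → L ⊔ K i = ⊤) (h : ⨅ i, K i = ⊥) :
    ∃ J : Finset ι, Nonempty (N ≃* ∀ j : J, N ⧸ K j) := by
  obtain ⟨J, hJ, hJmin⟩ := exists_minimal_of_wellFoundedLT (fun J : Finset ι => ⨅ j ∈ J, K j = ⊥)
    ⟨Finset.univ, by simpa using h⟩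
  refine ⟨J, ⟨MulEquiv.ofBijective (MonoidHom.pi fun j : J => QuotientGroup.mk' (K j)) ⟨?_, ?_⟩⟩⟩
  · rw [injective_iff_map_eq_one]
    intro x hx
    have h1 : x ∈ ⨅ j ∈ J, K j := by
      rw [Subgroup.mem_iInf]
      intro j
      rw [Subgroup.mem_iInf]
      intro hj
      have h2 := congrFun hx ⟨j, hj⟩
      exact (QuotientGroup.eq_one_iff x).1 h2
    rw [hJ, Subgroup.mem_bot] at h1
    exact h1
  · rw [← MonoidHom.range_eq_top, eq_top_iff]
    intro y _
    apply Subgroup.pi_mem_of_mulSingle_mem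
    intro j
    have hnorm : (⨅ l ∈ J.erase j, K l).Normal :=
      Subgroup.normal_iInf_normal fun l => Subgroup.normal_iInf_normal fun _ => hK l
    have hnot : ¬ (⨅ l ∈ J.erase j, K l) ≤ K j := by
      intro hle
      have h1 : (⨅ l ∈ J.erase (j : ι), K l) = ⊥ := by
        rw [← hJ]
        apply le_antisymm
        · apply le_iInf
          intro l
          apply le_iInf
          intro hl
          by_cases hlj : l = j
          · rw [hlj]; exact hle
          · exact iInf₂_le l (Finset.mem_erase.2 ⟨hlj, hl⟩)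
        · apply le_iInf
          intro l
          apply le_iInf
          intro hl
          exact iInf₂_le l (Finset.mem_of_mem_erase hl)
      have h2 := hJmin h1 (Finset.erase_subset _ _)
      exact Finset.notMem_erase (j : ι) J (h2 j.2)
    have hsup := hmax j _ hnorm hnot
    obtain ⟨x, hx⟩ := QuotientGroup.mk'_surjective (K j) (y j)
    have hxmem : x ∈ (⨅ l ∈ J.erase (j : ι), K l) ⊔ K j := by rw [hsup]; exact Subgroup.mem_top x
    obtain ⟨a, ha, b, hb, hab⟩ := Subgroup.mem_sup_of_normal_right.1 hxmem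
    refine ⟨a, ?_⟩
    funext l
    by_cases hlj : l = j
    · subst hlj
      rw [Pi.mulSingle_eq_same, ← hx, ← hab]
      show QuotientGroup.mk' (K l) a = QuotientGroup.mk' (K l) (a * b)
      have hb1 : QuotientGroup.mk' (K l) b = 1 := (QuotientGroup.eq_one_iff b).2 hb
      rw [map_mul, hb1, mul_one]
    · rw [Pi.mulSingle_eq_of_ne hlj]
      show QuotientGroup.mk' (K l) a = 1
      apply (QuotientGroup.eq_one_iff a).2
      have ha' : a ∈ ⨅ l ∈ J.erase (j : ι), K l := ha
      have hle : (⨅ l ∈ J.erase (j : ι), K l) ≤ K l :=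
        iInf₂_le (l : ι) (Finset.mem_erase.2 ⟨fun hh => hlj (Subtype.ext hh), l.2⟩)
      exact hle ha'
-- END prod_iso

-- BEGIN min_struct
/-- PROOF. `K` = a maximal proper normal subgroup of `N` (finite, `N ≠ ⊥`), `T = N ⧸ K`, simple. `K g = K.comap (MulAut.conjNormal g⁻¹)` (or `map`) for `g : G`: normal in `N`, maximal
among the proper normal subgroups, `N ⧸ K g ≃* N ⧸ K` (`QuotientGroup.congr`). `⨅ g, K g` is (mapped to `G`) normal in `G`, inside `N`, not `N`: so it is `⊥`. `prod_iso` with `ι = G`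
(`Fintype.ofFinite`), then `MulEquiv.piCongrRight` and `MulEquiv.piCongrLeft`/`arrowCongr` with `J ≃ Fin m`. -/
theorem min_struct {G : Type} [Group G] [Finite G] (N : Subgroup G) [N.Normal] (hN : N ≠ ⊥)
    (hmin : ∀ M : Subgroup G, M.Normal → M ≤ N → M = ⊥ ∨ M = N) :
    ∃ (T : Type) (_ : Group T) (_ : IsSimpleGroup T) (m : ℕ), Nonempty (N ≃* (Fin m → T)) := by
  classical
  have : Fintype G := Fintype.ofFinite G
  have hbt : (⊥ : Subgroup N) ≠ ⊤ := by
    intro h
    apply hN
    rw [eq_bot_iff]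
    intro x hx
    have h1 : (⟨x, hx⟩ : N) ∈ (⊥ : Subgroup N) := by rw [h]; exact Subgroup.mem_top _
    rw [Subgroup.mem_bot] at h1
    rw [Subgroup.mem_bot]
    exact congrArg Subtype.val h1
  obtain ⟨K, ⟨hKn, hKt⟩, hKmax⟩ := exists_maximal_of_wellFoundedGT
    (fun K : Subgroup N => K.Normal ∧ K ≠ ⊤) ⟨⊥, inferInstance, hbt⟩
  have hmaxK : ∀ L : Subgroup N, L.Normal → K ≤ L → L = K ∨ L = ⊤ := by
    intro L hL hKL
    by_cases hLt : L = ⊤
    · exact Or.inr hLt
    · exact Or.inl (le_antisymm (hKmax ⟨hL, hLt⟩ hKL) hKL)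
  -- simplicity
  have hsimple : IsSimpleGroup (N ⧸ K) := by
    have hnt : Nontrivial (N ⧸ K) := by
      obtain ⟨x, hx⟩ : ∃ x : N, x ∉ K := by
        by_contra h
        push Not at h
        exact hKt ((eq_top_iff).2 fun x _ => h x)
      exact ⟨QuotientGroup.mk' K x, 1, fun h => hx ((QuotientGroup.eq_one_iff x).1 h)⟩
    refine ⟨fun M hM => ?_⟩
    have h1 : (M.comap (QuotientGroup.mk' K)).Normal := hM.comap _
    have h2 : K ≤ M.comap (QuotientGroup.mk' K) := by
      intro x hx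
      rw [Subgroup.mem_comap]
      have h3 : QuotientGroup.mk' K x = 1 := (QuotientGroup.eq_one_iff x).2 hx
      rw [h3]
      exact M.one_mem
    rcases hmaxK _ h1 h2 with h3 | h3
    · left
      rw [eq_bot_iff]
      intro y hy
      obtain ⟨x, rfl⟩ := QuotientGroup.mk'_surjective K y
      have h4 : x ∈ M.comap (QuotientGroup.mk' K) := hy
      rw [h3] at h4
      rw [Subgroup.mem_bot]
      exact (QuotientGroup.eq_one_iff x).2 h4
    · right
      rw [eq_top_iff]
      intro y _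
      obtain ⟨x, rfl⟩ := QuotientGroup.mk'_surjective K y
      have h4 : x ∈ M.comap (QuotientGroup.mk' K) := by rw [h3]; exact Subgroup.mem_top x
      exact h4
  -- the conjugates
  obtain ⟨φ, hφ⟩ : ∃ φ : G → (N ≃* N), ∀ g n, ((φ g n : N) : G) = g * n * g⁻¹ :=
    ⟨fun g => MulAut.conjNormal g, fun g n => MulAut.conjNormal_apply g n⟩
  have hφmul : ∀ g h n, φ g (φ h n) = φ (g * h) n := by
    intro g h n
    apply Subtype.ext
    rw [hφ, hφ, hφ]
    group
  have hφone : ∀ n, φ 1 n = n := by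
    intro n
    apply Subtype.ext
    rw [hφ]
    group
  obtain ⟨Kg, hKg⟩ : ∃ Kg : G → Subgroup N, ∀ g, Kg g = K.comap (φ g⁻¹).toMonoidHom := ⟨_, fun g => rfl⟩
  have hmem : ∀ g x, x ∈ Kg g ↔ φ g⁻¹ x ∈ K := by
    intro g x
    rw [hKg]
    rfl
  have hKgn : ∀ g, (Kg g).Normal := fun g => by
    rw [hKg]
    exact hKn.comap _
  have hmax : ∀ (g : G) (L : Subgroup N), L.Normal → ¬ L ≤ Kg g → L ⊔ Kg g = ⊤ := by
    intro g L hL hLK
    have hL' : (L.comap (φ g).toMonoidHom).Normal := hL.comap _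
    have h1 : L.comap (φ g).toMonoidHom ⊔ K = ⊤ := by
      rcases hmaxK (L.comap (φ g).toMonoidHom ⊔ K) (Subgroup.sup_normal _ _) le_sup_right with h | h
      · exfalso
        apply hLK
        intro x hx
        rw [hmem]
        have h2 : φ g⁻¹ x ∈ L.comap (φ g).toMonoidHom := by
          show φ g (φ g⁻¹ x) ∈ L
          rw [hφmul, mul_inv_cancel, hφone]
          exact hx
        have h3 : φ g⁻¹ x ∈ L.comap (φ g).toMonoidHom ⊔ K := Subgroup.mem_sup_left h2
        rw [h] at h3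
        exact h3
      · exact h
    rw [eq_top_iff]
    intro x _
    have h2 : φ g⁻¹ x ∈ L.comap (φ g).toMonoidHom ⊔ K := by rw [h1]; exact Subgroup.mem_top _
    obtain ⟨a, ha, b, hb, hab⟩ := Subgroup.mem_sup_of_normal_right.1 h2
    have hx : x = φ g a * φ g b := by
      rw [← map_mul, hab, hφmul, mul_inv_cancel, hφone]
    rw [hx]
    have hb' : φ g b ∈ Kg g := by
      rw [hmem, hφmul, inv_mul_cancel, hφone]
      exact hb
    exact Subgroup.mul_mem _ (Subgroup.mem_sup_left ha) (Subgroup.mem_sup_right hb')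
  have hinf : ⨅ g, Kg g = ⊥ := by
    have hDn : ((⨅ g, Kg g).map N.subtype).Normal := by
      constructor
      rintro x ⟨n, hn, rfl⟩ h
      refine ⟨φ h n, ?_, hφ h n⟩
      have hn' : n ∈ ⨅ g, Kg g := hn
      rw [Subgroup.mem_iInf] at hn'
      show φ h n ∈ ⨅ g, Kg g
      rw [Subgroup.mem_iInf]
      intro g
      rw [hmem, hφmul]
      have h1 := (hmem (h⁻¹ * g) n).1 (hn' (h⁻¹ * g))
      rw [mul_inv_rev, inv_inv] at h1
      exact h1
    have hDle : (⨅ g, Kg g).map N.subtype ≤ N := by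
      rintro x ⟨n, _, rfl⟩
      exact n.2
    rcases hmin _ hDn hDle with h | h
    · rw [eq_bot_iff]
      intro x hx
      have h1 : N.subtype x ∈ (⨅ g, Kg g).map N.subtype := ⟨x, hx, rfl⟩
      rw [h, Subgroup.mem_bot] at h1
      rw [Subgroup.mem_bot]
      exact Subtype.ext h1
    · exfalso
      apply hKt
      rw [eq_top_iff]
      intro x _
      have h1 : (x : G) ∈ (⨅ g, Kg g).map N.subtype := by rw [h]; exact x.2
      obtain ⟨n, hn, hnx⟩ := h1
      have hn' : n ∈ ⨅ g, Kg g := hn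
      rw [Subgroup.mem_iInf] at hn'
      have h2 := (hmem 1 n).1 (hn' 1)
      rw [inv_one, hφone] at h2
      have h3 : n = x := Subtype.ext hnx
      rw [← h3]
      exact h2
  obtain ⟨J, ⟨e⟩⟩ := prod_iso (hK := hKgn) Kg hmax hinf
  have hiso : ∀ g : G, Nonempty (N ⧸ Kg g ≃* N ⧸ K) := by
    intro g
    refine ⟨QuotientGroup.congr (Kg g) K (φ g⁻¹) ?_⟩
    ext x
    constructor
    · rintro ⟨y, hy, rfl⟩
      exact (hmem g y).1 hy
    · intro hx
      refine ⟨φ g x, ?_, ?_⟩
      · show φ g x ∈ Kg g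
        rw [hmem, hφmul, inv_mul_cancel, hφone]
        exact hx
      · show φ g⁻¹ (φ g x) = x
        rw [hφmul, inv_mul_cancel, hφone]
  refine ⟨N ⧸ K, inferInstance, hsimple, Fintype.card J, ⟨?_⟩⟩
  exact e.trans ((MulEquiv.piCongrRight fun j : J => (hiso j).some).trans
    (MulEquiv.arrowCongr (Fintype.equivFin J) (MulEquiv.refl (N ⧸ K))))
-- END min_struct

-- BEGIN ser_quot
/-- PROOF. Images of the series under `QuotientGroup.mk' N`. For `i ∈ I` with `H (i+1) ⊓ N ≤ H i`: the restriction `g : H (i+1) → (H (i+1)).map (mk' N)` is onto with kernel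
`H (i+1) ⊓ N ≤ ker f`, so `f = f' ∘ g` (`MonoidHom.liftOfSurjective` or `QuotientGroup.lift`), `f'` is onto, its kernel is `g (ker f)`, the image of `H i`. Normality of the image of
`H i` in the image of `H (i+1)`: pointwise. -/
theorem ser_quot {G : Type} [Group G] {r : ℕ} {H : ℕ → Subgroup G} {I : Finset ℕ} {d : ℕ → ℕ}
    (h : Ser r H I d) (N : Subgroup G) [N.Normal] (I' : Finset ℕ)
    (hI' : ∀ i ∈ I', i ∈ I ∧ H (i + 1) ⊓ N ≤ H i) :
    Ser r (fun i => (H i).map (QuotientGroup.mk' N)) I' d := by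
  obtain ⟨hbot, htop, hstep, hI⟩ := h
  refine ⟨?_, ?_, fun i hi => ⟨?_, ?_⟩, fun i hi => ?_⟩
  · show (H 0).map (QuotientGroup.mk' N) = ⊥
    rw [hbot, Subgroup.map_bot]
  · show (H r).map (QuotientGroup.mk' N) = ⊤
    rw [htop]
    exact Subgroup.map_top_of_surjective _ (QuotientGroup.mk'_surjective N)
  · exact Subgroup.map_mono (hstep i hi).1
  · constructor
    rintro ⟨n, hn⟩ hn1 ⟨g, hg⟩
    obtain ⟨x, hx, rfl⟩ := hn1
    obtain ⟨y, hy, rfl⟩ := hg
    have hx' : x ∈ H i := hx
    have h1 := (hstep i hi).2.conj_mem ⟨x, (hstep i hi).1 hx'⟩ hx' ⟨y, hy⟩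
    refine ⟨y * x * y⁻¹, h1, ?_⟩
    rw [map_mul, map_mul, map_inv]
    rfl
  · obtain ⟨hiI, hle⟩ := hI' i hi
    obtain ⟨hir, f, hf, hker⟩ := hI i hiI
    refine ⟨hir, ?_⟩
    have hg := MonoidHom.subgroupMap_surjective (QuotientGroup.mk' N) (H (i + 1))
    have hgv : ∀ x : H (i + 1), (((QuotientGroup.mk' N).subgroupMap (H (i + 1)) x :
        (H (i + 1)).map (QuotientGroup.mk' N)) : G ⧸ N) = QuotientGroup.mk' N (x : G) := fun x => rfl
    have hkk : ((QuotientGroup.mk' N).subgroupMap (H (i + 1))).ker ≤ f.ker := by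
      intro x hx
      rw [hker]
      have h1 : QuotientGroup.mk' N (x : G) = 1 := by
        rw [← hgv x, (MonoidHom.mem_ker).1 hx]
        rfl
      have h2 : (x : G) ∈ N := (QuotientGroup.eq_one_iff (x : G)).1 h1
      exact hle ⟨x.2, h2⟩
    have hlift : ∀ x : H (i + 1), (((QuotientGroup.mk' N).subgroupMap (H (i + 1))).liftOfRightInverse
        (Function.surjInv hg) (Function.rightInverse_surjInv hg) ⟨f, hkk⟩)
        ((QuotientGroup.mk' N).subgroupMap (H (i + 1)) x) = f x := fun x =>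
      MonoidHom.liftOfRightInverse_comp_apply _ _ (Function.rightInverse_surjInv hg) ⟨f, hkk⟩ x
    refine ⟨((QuotientGroup.mk' N).subgroupMap (H (i + 1))).liftOfRightInverse
        (Function.surjInv hg) (Function.rightInverse_surjInv hg) ⟨f, hkk⟩, fun y => ?_, ?_⟩
    · obtain ⟨x, hx⟩ := hf y
      exact ⟨_, (hlift x).trans hx⟩
    · ext y
      obtain ⟨x, rfl⟩ := hg y
      rw [MonoidHom.mem_ker, hlift x]
      constructor
      · intro h1
        have h2 : x ∈ f.ker := h1
        rw [hker] at h2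
        exact ⟨x, h2, rfl⟩
      · rintro ⟨z, hz, hzx⟩
        have hz' : z ∈ H i := hz
        have h3 : (QuotientGroup.mk' N).subgroupMap (H (i + 1)) ⟨z, (hstep i hir).1 hz'⟩ =
            (QuotientGroup.mk' N).subgroupMap (H (i + 1)) x := Subtype.ext hzx
        have h4 := hlift ⟨z, (hstep i hir).1 hz'⟩
        rw [h3, hlift x] at h4
        rw [h4]
        have h5 : (⟨z, (hstep i hir).1 hz'⟩ : H (i + 1)) ∈ f.ker := by
          rw [hker]
          exact hz'
        exact h5
-- END ser_quot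

-- BEGIN res_surj
/-- PROOF. The image of `H (i+1) ⊓ N` under `f` is normal in the simple group `A_(d i)` (`alternatingGroup.isSimpleGroup`) and not trivial (an element of `H (i+1) ⊓ N` outside of
`H i` is not in the kernel). -/
theorem res_surj {G : Type} [Group G] (A B N : Subgroup G) [N.Normal] {n : ℕ} (hn : 5 ≤ n)
    (f : B →* alternatingGroup (Fin n)) (hf : Function.Surjective f) (hk : f.ker = A.subgroupOf B)
    (hN : ¬ B ⊓ N ≤ A) (y : alternatingGroup (Fin n)) : ∃ x : B, (x : G) ∈ N ∧ f x = y := by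
  have hs : IsSimpleGroup (alternatingGroup (Fin n)) :=
    alternatingGroup.isSimpleGroup (by rw [Nat.card_eq_fintype_card, Fintype.card_fin]; exact hn)
  have hnorm : ((N.subgroupOf B).map f).Normal := Subgroup.Normal.map inferInstance f hf
  rcases hnorm.eq_bot_or_eq_top with h | h
  · exfalso
    apply hN
    rintro x ⟨hxB, hxN⟩
    have h1 : f ⟨x, hxB⟩ ∈ (N.subgroupOf B).map f := Subgroup.mem_map_of_mem f (Subgroup.mem_subgroupOf.2 hxN)
    rw [h, Subgroup.mem_bot] at h1
    have h2 : (⟨x, hxB⟩ : B) ∈ f.ker := h1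
    rw [hk, Subgroup.mem_subgroupOf] at h2
    exact h2
  · have h1 : y ∈ (N.subgroupOf B).map f := by rw [h]; exact Subgroup.mem_top y
    obtain ⟨x, hx, hxy⟩ := h1
    exact ⟨x, Subgroup.mem_subgroupOf.1 hx, hxy⟩
-- END res_surj

-- BEGIN count
/-- PROOF. Induction on `r`-like statement: for all `l ≤ r`, `∏ i ∈ I'.filter (· < l), card A_(d i) ≤ card (H l ⊓ N)`: for `l ∈ I'` the map `H (l+1) ⊓ N → A_(d l)` is onto
(`res_surj`) with kernel `H l ⊓ N`, so `card (H (l+1) ⊓ N) = card A_(d l) * card (H l ⊓ N)`; for `l ∉ I'` use `H l ≤ H (l+1)`. At `l = r`: `H r ⊓ N = N`. -/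
theorem count {G : Type} [Group G] [Finite G] {r : ℕ} {H : ℕ → Subgroup G} {I : Finset ℕ}
    {d : ℕ → ℕ} (h : Ser r H I d) (N : Subgroup G) [N.Normal] (I' : Finset ℕ)
    (hI' : ∀ i ∈ I', i ∈ I ∧ 5 ≤ d i ∧ ¬ H (i + 1) ⊓ N ≤ H i) :
    ∏ i ∈ I', Nat.card (alternatingGroup (Fin (d i))) ≤ Nat.card N := by
  obtain ⟨-, hr, hmono, hfac⟩ := h
  have key : ∀ l : ℕ, l ≤ r → ∏ i ∈ I'.filter (fun i => i < l), Nat.card (alternatingGroup (Fin (d i))) ≤
      Nat.card (H l ⊓ N : Subgroup G) := by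
    intro l
    induction l with
    | zero =>
      intro _
      have h0 : I'.filter (fun i => i < 0) = ∅ := Finset.filter_eq_empty_iff.2 fun i _ => Nat.not_lt_zero i
      rw [h0, Finset.prod_empty]
      exact Nat.card_pos
    | succ l ih =>
      intro hl
      have ih' := ih (by omega)
      have hle : H l ⊓ N ≤ H (l + 1) ⊓ N := inf_le_inf_right N (hmono l (by omega)).1
      by_cases hlI : l ∈ I'
      · have h1 : I'.filter (fun i => i < l + 1) = insert l (I'.filter (fun i => i < l)) := by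
          ext i
          simp only [Finset.mem_filter, Finset.mem_insert]
          constructor
          · rintro ⟨h1, h2⟩
            rcases Nat.lt_succ_iff_lt_or_eq.1 h2 with h3 | h3
            · exact Or.inr ⟨h1, h3⟩
            · exact Or.inl h3
          · rintro (h1 | ⟨h1, h2⟩)
            · rw [h1]; exact ⟨hlI, by omega⟩
            · exact ⟨h1, by omega⟩
        have h2 : l ∉ I'.filter (fun i => i < l) := by simp
        rw [h1, Finset.prod_insert h2]
        obtain ⟨hlI2, hd, hn⟩ := hI' l hlI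
        obtain ⟨-, f, hf, hk⟩ := hfac l hlI2
        let g : (H (l + 1) ⊓ N : Subgroup G) →* alternatingGroup (Fin (d l)) :=
          f.comp (Subgroup.inclusion inf_le_left)
        have hg : Function.Surjective g := by
          intro y
          obtain ⟨x, hxN, hx⟩ := res_surj (H l) (H (l + 1)) N hd f hf hk hn y
          exact ⟨⟨x, x.2, hxN⟩, hx⟩
        have hc : Nat.card (H (l + 1) ⊓ N : Subgroup G) = Nat.card (alternatingGroup (Fin (d l))) * Nat.card g.ker := by
          rw [Subgroup.card_eq_card_quotient_mul_card_subgroup g.ker,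
            Nat.card_congr (QuotientGroup.quotientKerEquivOfSurjective g hg).toEquiv]
        have hker : Nat.card (H l ⊓ N : Subgroup G) ≤ Nat.card g.ker := by
          have hmem : ∀ x : (H l ⊓ N : Subgroup G), g ⟨x, hle x.2⟩ = 1 := by
            intro x
            have h3 : (⟨x, (hle x.2).1⟩ : H (l + 1)) ∈ f.ker := by
              rw [hk, Subgroup.mem_subgroupOf]
              exact x.2.1
            exact h3
          exact Nat.card_le_card_of_injective
            (fun x : (H l ⊓ N : Subgroup G) => (⟨⟨x, hle x.2⟩, hmem x⟩ : g.ker))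
            (fun x y hxy => by
              have h4 := congrArg (fun z : g.ker => ((z : (H (l + 1) ⊓ N : Subgroup G)) : G)) hxy
              exact Subtype.ext h4)
        rw [hc]
        exact Nat.mul_le_mul_left _ (ih'.trans hker)
      · have h1 : I'.filter (fun i => i < l + 1) = I'.filter (fun i => i < l) := by
          apply Finset.filter_congr
          intro i hi
          have : i ≠ l := fun h => hlI (h ▸ hi)
          omega
        rw [h1]
        exact ih'.trans (Nat.card_le_card_of_injective (Subgroup.inclusion hle) (Subgroup.inclusion_injective hle))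
  have hfin := key r le_rfl
  have h1 : I'.filter (fun i => i < r) = I' := Finset.filter_true_of_mem fun i hi => (hfac i (hI' i hi).1).1
  rw [h1, hr, top_inf_eq] at hfin
  exact hfin
-- END count

-- BEGIN subn_image
/-- PROOF. Downward induction on `l` (from `r` to `0`): the set `q '' (H l ⊓ M)` is `{1}` or everything. `l = r`: `q` is onto. Step: `H l ⊓ M` is normalized by `H (l+1) ⊓ M`, so if the image of
the latter is `T`, the image of the former is a normal subgroup of `T`, `⊥` or `⊤` (`IsSimpleGroup.eq_bot_or_eq_top_of_normal`); if it is `{1}`, so is the former. -/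
theorem subn_image {G : Type} [Group G] {r : ℕ} {H : ℕ → Subgroup G} {I : Finset ℕ} {d : ℕ → ℕ}
    (h : Ser r H I d) (M : Subgroup G) {T : Type} [Group T] [IsSimpleGroup T] (q : M →* T)
    (hq : Function.Surjective q) (l : ℕ) (hl : l ≤ r) :
    (∀ x : M, (x : G) ∈ H l → q x = 1) ∨ ∀ y : T, ∃ x : M, (x : G) ∈ H l ∧ q x = y := by
  obtain ⟨-, htop, hstep, -⟩ := h
  have key : ∀ k : ℕ, k ≤ r → ((∀ x : M, (x : G) ∈ H (r - k) → q x = 1) ∨
      ∀ y : T, ∃ x : M, (x : G) ∈ H (r - k) ∧ q x = y) := by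
    intro k
    induction k with
    | zero =>
      intro _
      right
      intro y
      obtain ⟨x, hx⟩ := hq y
      refine ⟨x, ?_, hx⟩
      rw [Nat.sub_zero, htop]
      exact Subgroup.mem_top _
    | succ k ih =>
      intro hk
      have e : r - k = (r - (k + 1)) + 1 := by omega
      have ih' := ih (by omega)
      rw [e] at ih'
      obtain ⟨hle, hnor⟩ := hstep (r - (k + 1)) (by omega)
      rcases ih' with h1 | h1
      · left
        intro x hx
        exact h1 x (hle hx)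
      · have hnorm : (((H (r - (k + 1))).subgroupOf M).map q).Normal := by
          constructor
          rintro z ⟨w, hw, rfl⟩ y
          obtain ⟨x, hx, rfl⟩ := h1 y
          refine ⟨x * w * x⁻¹, ?_, by rw [map_mul, map_mul, map_inv]⟩
          have hw' : (w : G) ∈ H (r - (k + 1)) := hw
          have h2 := hnor.conj_mem ⟨w, hle hw'⟩ hw' ⟨x, hx⟩
          exact h2
        rcases hnorm.eq_bot_or_eq_top with h2 | h2
        · left
          intro x hx
          have h3 : q x ∈ ((H (r - (k + 1))).subgroupOf M).map q := ⟨x, hx, rfl⟩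
          rw [h2, Subgroup.mem_bot] at h3
          exact h3
        · right
          intro y
          have h3 : y ∈ ((H (r - (k + 1))).subgroupOf M).map q := by rw [h2]; exact Subgroup.mem_top y
          obtain ⟨x, hx, hxy⟩ := h3
          exact ⟨x, hx, hxy⟩
  have h1 := key (r - l) (by omega)
  rwa [show r - (r - l) = l by omega] at h1
-- END subn_image

-- BEGIN jh
/-- the elements of `N` whose coordinates from the `j`-th on are `1` -/
private def jh_N {G : Type} [Group G] (N : Subgroup G) {T : Type} [Group T] {m : ℕ} (e : N ≃* (Fin m → T)) (j : ℕ) :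
    Subgroup G where
  carrier := {x | ∃ hx : x ∈ N, ∀ l : Fin m, j ≤ l.val → e ⟨x, hx⟩ l = 1}
  mul_mem' := by
    rintro a b ⟨ha, ha'⟩ ⟨hb, hb'⟩
    refine ⟨N.mul_mem ha hb, fun l hl => ?_⟩
    have h1 : (⟨a * b, N.mul_mem ha hb⟩ : N) = ⟨a, ha⟩ * ⟨b, hb⟩ := rfl
    rw [h1, map_mul, Pi.mul_apply, ha' l hl, hb' l hl, one_mul]
  one_mem' := by
    refine ⟨N.one_mem, fun l _ => ?_⟩
    have h1 : (⟨1, N.one_mem⟩ : N) = 1 := rfl
    rw [h1, map_one, Pi.one_apply]
  inv_mem' := by
    rintro a ⟨ha, ha'⟩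
    refine ⟨N.inv_mem ha, fun l hl => ?_⟩
    have h1 : (⟨a⁻¹, N.inv_mem ha⟩ : N) = (⟨a, ha⟩ : N)⁻¹ := rfl
    rw [h1, map_inv, Pi.inv_apply, ha' l hl, inv_one]

private theorem jh_conj {G : Type} [Group G] (N : Subgroup G) {T : Type} [Group T] {m : ℕ} (e : N ≃* (Fin m → T)) (j : ℕ)
    {x y : G} (hx : x ∈ jh_N N e j) (hy : y ∈ N) : y * x * y⁻¹ ∈ jh_N N e j := by
  obtain ⟨hx1, hx2⟩ := hx
  refine ⟨N.mul_mem (N.mul_mem hy hx1) (N.inv_mem hy), fun l hl => ?_⟩
  have h1 : (⟨y * x * y⁻¹, N.mul_mem (N.mul_mem hy hx1) (N.inv_mem hy)⟩ : N) = ⟨y, hy⟩ * ⟨x, hx1⟩ * (⟨y, hy⟩ : N)⁻¹ := rfl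
  rw [h1, map_mul, map_mul, map_inv, Pi.mul_apply, Pi.mul_apply, Pi.inv_apply, hx2 l hl, mul_one, mul_inv_cancel]

/-- PROOF. `f : H (i+1) → S = A_(d i)`, onto, kernel `H i`; `S` is simple. For `j ≤ m` let `N_j` = the subgroup of `G` of all `x ∈ N` with `e x l = 1` for all `l ≥ j` (as `Fin m`); it is
normalized by `N`. The subgroup `f (H (i+1) ⊓ N_j)` of `S` is normalized by `f (H (i+1) ⊓ N) = S` (`res_surj`), so it is `⊥` or `⊤`; it is `⊥` for `j = 0`, `⊤` for `j = m` (`res_surj`): there is `j < m`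
with `⊥` at `j`, `⊤` at `j + 1`. `q : N_(j+1) → T`, `x ↦ e x j` is onto with kernel `N_j`. By `subn_image` (with `M = N_(j+1)`, `l = i + 1`) `q` maps
`H (i+1) ⊓ N_(j+1)` to `{1}` or onto `T`; not to `{1}`, because then `H (i+1) ⊓ N_(j+1) = H (i+1) ⊓ N_j`. So there is a homomorphism `T → S`,
`q x ↦ f x` (well defined: `f = 1` on `H (i+1) ⊓ N_j`), onto; `T` is simple and `S ≠ 1`, so it is injective. -/
theorem jh {G : Type} [Group G] [Finite G] {r : ℕ} {H : ℕ → Subgroup G} {I : Finset ℕ} {d : ℕ → ℕ}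
    (h : Ser r H I d) (N : Subgroup G) [N.Normal] {T : Type} [Group T] [IsSimpleGroup T] {m : ℕ}
    (e : N ≃* (Fin m → T)) (i : ℕ) (hi : i ∈ I) (hd : 5 ≤ d i) (hN : ¬ H (i + 1) ⊓ N ≤ H i) :
    Nonempty (T ≃* alternatingGroup (Fin (d i))) := by
  obtain ⟨hir, f, hf, hk⟩ := h.2.2.2 i hi
  have hS : IsSimpleGroup (alternatingGroup (Fin (d i))) := alternatingGroup.isSimpleGroup (by simpa using hd)
  have h0 : ∀ x : H (i + 1), (x : G) ∈ jh_N N e 0 → f x = 1 := by
    rintro x ⟨hx1, hx2⟩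
    have h1 : e ⟨x, hx1⟩ = 1 := funext fun l => hx2 l (Nat.zero_le _)
    have h2 : (⟨x, hx1⟩ : N) = 1 := e.injective (h1.trans (map_one e).symm)
    have h3 : (x : G) = 1 := congrArg Subtype.val h2
    have h4 : x = 1 := Subtype.ext h3
    rw [h4, map_one]
  have hm : ¬ ∀ x : H (i + 1), (x : G) ∈ jh_N N e m → f x = 1 := by
    intro hall
    apply hN
    rintro x ⟨hx1, hx2⟩
    have h1 : (⟨x, hx1⟩ : H (i + 1)) ∈ f.ker := hall ⟨x, hx1⟩ ⟨hx2, fun l hl => absurd l.2 (by omega)⟩
    rw [hk, Subgroup.mem_subgroupOf] at h1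
    exact h1
  obtain ⟨j, hjm, hj1, hj2⟩ : ∃ j < m, (∀ x : H (i + 1), (x : G) ∈ jh_N N e j → f x = 1) ∧
      ¬ ∀ x : H (i + 1), (x : G) ∈ jh_N N e (j + 1) → f x = 1 := by
    by_contra hcon
    push Not at hcon
    apply hm
    have : ∀ j ≤ m, ∀ x : H (i + 1), (x : G) ∈ jh_N N e j → f x = 1 := by
      intro j
      induction j with
      | zero => intro _; exact h0
      | succ j ih => intro hj; exact hcon j (by omega) (ih (by omega))
    exact this m le_rfl
  -- the image of `H (i+1) ⊓ N_(j+1)` is everything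
  let W : Subgroup G := H (i + 1) ⊓ jh_N N e (j + 1)
  let fW : W →* alternatingGroup (Fin (d i)) := f.comp (Subgroup.inclusion inf_le_left)
  have hnorm : fW.range.Normal := by
    refine ⟨?_⟩
    rintro _ ⟨x, rfl⟩ s
    obtain ⟨y, hyN, rfl⟩ := res_surj (H i) (H (i + 1)) N hd f hf hk hN s
    have hx1 : (y : G) * (x : G) * (y : G)⁻¹ ∈ H (i + 1) :=
      (H (i + 1)).mul_mem ((H (i + 1)).mul_mem y.2 x.2.1) ((H (i + 1)).inv_mem y.2)
    have hx2 := jh_conj N e (j + 1) x.2.2 hyN
    refine ⟨⟨_, hx1, hx2⟩, ?_⟩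
    change f ⟨(y : G) * (x : G) * (y : G)⁻¹, hx1⟩ = f y * f ⟨x, x.2.1⟩ * (f y)⁻¹
    rw [← map_mul, ← map_inv, ← map_mul]
    rfl
  have hsurj : Function.Surjective fW := by
    rw [← MonoidHom.range_eq_top]
    rcases hnorm.eq_bot_or_eq_top with h1 | h1
    · exfalso
      apply hj2
      intro x hx
      have h2 : fW ⟨x, x.2, hx⟩ ∈ fW.range := ⟨_, rfl⟩
      rw [h1, Subgroup.mem_bot] at h2
      exact h2
    · exact h1
  -- the coordinate
  let q : jh_N N e (j + 1) →* T :=
    { toFun := fun x => e ⟨x, x.2.choose⟩ ⟨j, hjm⟩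
      map_one' := by
        have h1 : (⟨((1 : jh_N N e (j + 1)) : G), (1 : jh_N N e (j + 1)).2.choose⟩ : N) = 1 := rfl
        rw [h1, map_one, Pi.one_apply]
      map_mul' := by
        intro x y
        have h1 : (⟨((x * y : jh_N N e (j + 1)) : G), (x * y).2.choose⟩ : N) =
            ⟨x, x.2.choose⟩ * ⟨y, y.2.choose⟩ := rfl
        rw [h1, map_mul, Pi.mul_apply] }
  have hq : Function.Surjective q := by
    intro t
    have h1 : ((e.symm (Pi.mulSingle ⟨j, hjm⟩ t) : N) : G) ∈ jh_N N e (j + 1) := by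
      refine ⟨(e.symm (Pi.mulSingle ⟨j, hjm⟩ t)).2, fun l hl => ?_⟩
      have h2 : (⟨((e.symm (Pi.mulSingle ⟨j, hjm⟩ t) : N) : G), (e.symm (Pi.mulSingle ⟨j, hjm⟩ t)).2⟩ : N) =
        e.symm (Pi.mulSingle ⟨j, hjm⟩ t) := rfl
      rw [h2, MulEquiv.apply_symm_apply, Pi.mulSingle_eq_of_ne]
      intro h3
      rw [h3] at hl
      exact absurd hl (by simp)
    refine ⟨⟨_, h1⟩, ?_⟩
    change e (e.symm (Pi.mulSingle ⟨j, hjm⟩ t)) ⟨j, hjm⟩ = t
    rw [MulEquiv.apply_symm_apply, Pi.mulSingle_eq_same]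
  have hkey : ∀ x : jh_N N e (j + 1), q x = 1 → (x : G) ∈ jh_N N e j := by
    rintro ⟨x, hx1, hx2⟩ hqx
    refine ⟨hx1, fun l hl => ?_⟩
    rcases Nat.lt_or_ge j l.val with h1 | h1
    · exact hx2 l h1
    · have h2 : l = ⟨j, hjm⟩ := Fin.ext (le_antisymm h1 hl)
      rw [h2]
      exact hqx
  rcases subn_image h (jh_N N e (j + 1)) q hq (i + 1) (by omega) with hsub | hsub
  · exfalso
    apply hj2
    intro x hx
    exact hj1 x (hkey ⟨x, hx⟩ (hsub ⟨x, hx⟩ x.2))
  · let qW : W →* T := q.comp (Subgroup.inclusion inf_le_right)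
    have hqW : Function.Surjective qW := by
      intro t
      obtain ⟨x, hx1, hx2⟩ := hsub t
      exact ⟨⟨x, hx1, x.2⟩, hx2⟩
    have hker : qW.ker ≤ fW.ker := by
      intro x hx
      exact hj1 ⟨x, x.2.1⟩ (hkey ⟨x, x.2.2⟩ hx)
    let φ : T →* alternatingGroup (Fin (d i)) := qW.liftOfSurjective hqW ⟨fW, hker⟩
    have hφ : ∀ x : W, φ (qW x) = fW x := fun x =>
      MonoidHom.liftOfRightInverse_comp_apply qW (Function.surjInv hqW) (Function.rightInverse_surjInv hqW) ⟨fW, hker⟩ x
    have hφs : Function.Surjective φ := by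
      intro s
      obtain ⟨x, hx⟩ := hsurj s
      exact ⟨qW x, (hφ x).trans hx⟩
    have hφi : Function.Injective φ := by
      rw [← MonoidHom.ker_eq_bot_iff]
      rcases (MonoidHom.normal_ker φ).eq_bot_or_eq_top with h1 | h1
      · exact h1
      · exfalso
        obtain ⟨s, hs⟩ := exists_ne (1 : alternatingGroup (Fin (d i)))
        obtain ⟨t, ht⟩ := hφs s
        have h2 : t ∈ φ.ker := by rw [h1]; exact Subgroup.mem_top t
        exact hs (ht.symm.trans h2)
    exact ⟨MulEquiv.ofBijective φ ⟨hφi, hφs⟩⟩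
-- END jh

-- BEGIN card_ser
/-- PROOF. For all `l ≤ r`: `card (H l) = ∏ i ∈ range l, (H i).relIndex (H (i+1))` (`Subgroup.relIndex_mul_card`-like: `(H i).relIndex (H (i+1)) * card (H i) = card (H (i+1))`); `H r = ⊤`. For `i ∈ I` the relative index
is `card A_(d i)` (first isomorphism theorem). -/
theorem card_ser {G : Type} [Group G] [Finite G] {r : ℕ} {H : ℕ → Subgroup G} {I : Finset ℕ}
    {d : ℕ → ℕ} (h : Ser r H I d) :
    Nat.card G = (∏ i ∈ I, Nat.card (alternatingGroup (Fin (d i)))) *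
      ∏ i ∈ Finset.range r \ I, (H i).relIndex (H (i + 1)) := by
  obtain ⟨h0, hr, hs, hI⟩ := h
  have key : ∀ l ≤ r, Nat.card (H l) = ∏ i ∈ Finset.range l, (H i).relIndex (H (i + 1)) := by
    intro l
    induction l with
    | zero =>
      intro _
      rw [h0]
      simp
    | succ l ih =>
      intro hl
      have h1 := ih (by omega)
      have h2 := (hs l (by omega)).1
      rw [Finset.prod_range_succ, ← h1]
      have h3 := Subgroup.relIndex_mul_relIndex ⊥ (H l) (H (l + 1)) bot_le h2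
      rw [Subgroup.relIndex_bot_left, Subgroup.relIndex_bot_left] at h3
      exact h3.symm
  have h1 := key r le_rfl
  rw [hr] at h1
  rw [← Subgroup.card_top (G := G), h1]
  have hsub : I ⊆ Finset.range r := fun i hi => Finset.mem_range.mpr (hI i hi).1
  rw [← Finset.prod_sdiff hsub, mul_comm]
  congr 1
  refine Finset.prod_congr rfl fun i hi => ?_
  obtain ⟨_, f, hf, hk⟩ := hI i hi
  rw [Subgroup.relIndex, ← hk, Subgroup.index_ker, MonoidHom.range_eq_top.mpr hf,
    Subgroup.card_top]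
-- END card_ser

-- BEGIN deg_inj
/-- PROOF. `2 * card A_n = n!` (`two_mul_nat_card_alternatingGroup`), `Nat.factorial_inj`. -/
theorem deg_inj {a b : ℕ} (ha : 2 ≤ a) (hb : 2 ≤ b)
    (h : Nat.card (alternatingGroup (Fin a)) = Nat.card (alternatingGroup (Fin b))) : a = b := by
  have : Nontrivial (Fin a) := Fin.nontrivial_iff_two_le.2 ha
  have : Nontrivial (Fin b) := Fin.nontrivial_iff_two_le.2 hb
  have h1 := two_mul_nat_card_alternatingGroup (α := Fin a)
  have h2 := two_mul_nat_card_alternatingGroup (α := Fin b)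
  rw [Nat.card_perm, Nat.card_fin] at h1 h2
  have h3 : a.factorial = b.factorial := by rw [← h1, ← h2, h]
  exact (Nat.factorial_inj (by omega)).1 h3
-- END deg_inj

end Pool.Agent.Wnx
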