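import Pool.Agent.Wil.Basic

set_option autoImplicit false

/-! Page I: the `p`-part of the factorial. -/

namespace Pool.Agent.Wnx

open Pool.Agent.Wil Real

theorem val_three {p : ℕ} (hp : p.Prime) (N : ℕ) :
    (N : ℝ) / p + (N : ℝ) / p ^ 2 + (N : ℝ) / p ^ 3 - 3 ≤ (N.factorial.factorization p : ℕ) := by
  have hp0 : (0 : ℝ) < p := by exact_mod_cast hp.pos
  set v := N.factorial.factorization p with hv
  have hv1 : N / p ^ 1 + N / p ^ 2 + N / p ^ 3 ≤ v := by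
    have : Fact p.Prime := ⟨hp⟩
    have hb : Nat.log p N < Nat.log p N + 4 := by omega
    rw [hv, Nat.factorization_def _ hp, padicValNat_factorial hb]
    have h1 : N / p ^ 1 + N / p ^ 2 + N / p ^ 3 = ∑ i ∈ Finset.Ico 1 4, N / p ^ i := by
      rw [Finset.sum_Ico_eq_sum_range]
      simp [Finset.sum_range_succ]
    rw [h1]
    apply Finset.sum_le_sum_of_subset
    intro i hi
    rw [Finset.mem_Ico] at hi ⊢
    omega
  have hfl : ∀ q : ℕ, 0 < q → (N : ℝ) / q - 1 ≤ ((N / q : ℕ) : ℝ) := by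
    intro q hq
    have hq0 : (0 : ℝ) < q := by exact_mod_cast hq
    have h1 : (N : ℝ) / q < ((N / q : ℕ) : ℝ) + 1 := by
      rw [div_lt_iff₀ hq0]
      have h2 : N < (N / q + 1) * q := by
        have := Nat.lt_div_mul_add hq (a := N)
        rw [Nat.add_mul, one_mul]
        exact this
      exact_mod_cast h2
    linarith
  have h1 := hfl (p ^ 1) (pow_pos hp.pos 1)
  have h2 := hfl (p ^ 2) (pow_pos hp.pos 2)
  have h3 := hfl (p ^ 3) (pow_pos hp.pos 3)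
  have h4 : ((N / p ^ 1 : ℕ) : ℝ) + ((N / p ^ 2 : ℕ) : ℝ) + ((N / p ^ 3 : ℕ) : ℝ) ≤ v := by
    exact_mod_cast hv1
  push_cast at h1 h2 h3
  rw [pow_one] at h1
  linarith

theorem val_num {p : ℕ} (hp : p.Prime) : (2.07 : ℝ) ≤ ((p : ℝ) + 1) * log p := by
  have hl2 := Real.log_two_gt_d9
  have hp2 : (2 : ℝ) ≤ p := by exact_mod_cast hp.two_le
  have hlp : log 2 ≤ log p := Real.log_le_log (by norm_num) hp2
  nlinarith

/-- `(n!)_{p'} p ^ (n / p) ≤ (n! / 2) exp (-2 n / p ^ 3)` for large `n` -/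
theorem val2 {p : ℕ} (hp : p.Prime) :
    ∃ N0 : ℕ, ∀ N ≥ N0,
      (pPrimePart p N.factorial : ℝ) * exp ((N : ℝ) * log p / p) ≤
        (N.factorial : ℝ) / 2 * exp (-(2 * N : ℝ) / (p : ℝ) ^ 3) := by
  have hp0 : (0 : ℝ) < p := by exact_mod_cast hp.pos
  have hp2 : (2 : ℝ) ≤ p := by exact_mod_cast hp.two_le
  have hl2 := Real.log_two_gt_d9
  have hlp : log 2 ≤ log p := Real.log_le_log (by norm_num) hp2
  refine ⟨⌈(p : ℝ) ^ 3 * (log 2 + 3 * log p) / 0.07⌉₊, fun N hN => ?_⟩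
  have hN' : (p : ℝ) ^ 3 * (log 2 + 3 * log p) / 0.07 ≤ N :=
    (Nat.le_ceil _).trans (by exact_mod_cast hN)
  have hv2 := val_three hp N
  set v := N.factorial.factorization p with hv
  have hmain : log 2 + (N : ℝ) * log p / p + (2 * N : ℝ) / (p : ℝ) ^ 3 ≤ v * log p := by
    have h1 : ((N : ℝ) / p + (N : ℝ) / p ^ 2 + (N : ℝ) / p ^ 3 - 3) * log p ≤ v * log p :=
      mul_le_mul_of_nonneg_right hv2 (by linarith)
    have h2 : (N : ℝ) / (p : ℝ) ^ 3 * 2.07 ≤ (N : ℝ) / (p : ℝ) ^ 3 * (((p : ℝ) + 1) * log p) :=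
      mul_le_mul_of_nonneg_left (val_num hp) (by positivity)
    have h3 : (N : ℝ) / (p : ℝ) ^ 3 * (((p : ℝ) + 1) * log p) =
        ((N : ℝ) / p + (N : ℝ) / p ^ 2 + (N : ℝ) / p ^ 3) * log p - (N : ℝ) * log p / p := by
      field_simp
      ring
    have h4 : log 2 + 3 * log p ≤ (N : ℝ) / (p : ℝ) ^ 3 * 0.07 := by
      rw [div_le_iff₀ (by norm_num)] at hN'
      rw [div_mul_eq_mul_div, le_div_iff₀ (by positivity)]
      linarith
    have h5 : (2 * N : ℝ) / (p : ℝ) ^ 3 = (N : ℝ) / (p : ℝ) ^ 3 * 2 := by ring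
    rw [h5]
    nlinarith
  have hpv : 2 * exp ((N : ℝ) * log p / p) * exp ((2 * N : ℝ) / (p : ℝ) ^ 3) ≤ (p : ℝ) ^ v := by
    have e1 : (p : ℝ) ^ v = exp (v * log p) := by
      rw [mul_comm, ← Real.rpow_def_of_pos hp0, Real.rpow_natCast]
    have e2 : 2 * exp ((N : ℝ) * log p / p) * exp ((2 * N : ℝ) / (p : ℝ) ^ 3) =
        exp (log 2 + (N : ℝ) * log p / p + (2 * N : ℝ) / (p : ℝ) ^ 3) := by
      rw [Real.exp_add, Real.exp_add, Real.exp_log (by norm_num)]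
    rw [e1, e2]
    exact Real.exp_le_exp.2 hmain
  have hdvd : p ^ v ∣ N.factorial := Nat.ordProj_dvd _ _
  unfold pPrimePart
  rw [← hv, Nat.cast_div hdvd (by exact_mod_cast (pow_pos hp.pos v).ne')]
  push_cast
  rw [neg_div, Real.exp_neg]
  have hE := Real.exp_pos ((2 * N : ℝ) / (p : ℝ) ^ 3)
  have hF : (0 : ℝ) < N.factorial := by exact_mod_cast Nat.factorial_pos N
  have hP : (0 : ℝ) < (p : ℝ) ^ v := by positivity
  rw [← div_eq_mul_inv, div_mul_eq_mul_div, div_div, div_le_div_iff₀ hP (by positivity)]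
  calc (N.factorial : ℝ) * exp ((N : ℝ) * log p / p) * (2 * exp ((2 * N : ℝ) / (p : ℝ) ^ 3))
      = (N.factorial : ℝ) * (2 * exp ((N : ℝ) * log p / p) *
          exp ((2 * N : ℝ) / (p : ℝ) ^ 3)) := by ring
    _ ≤ (N.factorial : ℝ) * (p : ℝ) ^ v := mul_le_mul_of_nonneg_left hpv hF.le

/-- `(n!)_{p'} p ^ (n / p) ≤ n! exp (- n / p ^ 3)` for large `n` -/
theorem val1 {p : ℕ} (hp : p.Prime) :
    ∃ N0 : ℕ, ∀ N ≥ N0,
      (pPrimePart p N.factorial : ℝ) * exp ((N : ℝ) * log p / p) ≤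
        (N.factorial : ℝ) * exp (-(N : ℝ) / (p : ℝ) ^ 3) := by
  obtain ⟨N0, h⟩ := val2 hp
  refine ⟨N0, fun N hN => (h N hN).trans ?_⟩
  have hp0 : (0 : ℝ) < p := by exact_mod_cast hp.pos
  apply mul_le_mul _ _ (exp_pos _).le (Nat.cast_nonneg _)
  · have : (0 : ℝ) ≤ N.factorial := Nat.cast_nonneg _
    linarith
  · apply Real.exp_le_exp.2
    rw [div_le_div_iff_of_pos_right (by positivity)]
    have : (0 : ℝ) ≤ N := Nat.cast_nonneg _
    linarith

end Pool.Agent.Wnx
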