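import Pool.Agent.Wil.Fin
import Pool.Agent.Wnx.Val
import Pool.Agent.Wnx.Ser

set_option autoImplicit false

/-! Page K: the theorem for composition factors. -/

namespace Pool.Agent.Wnx

open Pool.Agent.Wil Real

/-- the lower bound for one alternating composition factor -/
noncomputable def aa (p n : ℕ) : ℝ := (n.factorial : ℝ) * exp (-(n : ℝ) / (p : ℝ) ^ 3)

/-- a non trivial even permutation -/
theorem exists_ne {n : ℕ} (hn : 4 ≤ n) : ∃ a : alternatingGroup (Fin n), a ≠ 1 := by
  have h3 : (Equiv.swap (⟨0, by omega⟩ : Fin n) ⟨1, by omega⟩ *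
      Equiv.swap (⟨0, by omega⟩ : Fin n) ⟨2, by omega⟩).IsThreeCycle :=
    Equiv.Perm.isThreeCycle_swap_mul_swap_same (by simp) (by simp) (by simp)
  refine ⟨⟨_, h3.mem_alternatingGroup⟩, fun h => ?_⟩
  exact h3.ne_one (congrArg Subtype.val h)

theorem ssDim_one_le (k G : Type) [Field k] [Group G] [Finite G] : 1 ≤ ssDim k G := by
  have h : (Ring.jacobson (MonoidAlgebra k G)).restrictScalars k ≠ ⊤ := by
    intro h
    have h1 : (1 : MonoidAlgebra k G) ∈ (Ring.jacobson (MonoidAlgebra k G)).restrictScalars k := by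
      rw [h]; trivial
    obtain ⟨n, hn⟩ := nilpotent_of_mem_jacobson (A := MonoidAlgebra k G) h1
    rw [one_pow] at hn
    exact one_ne_zero hn
  have : Nontrivial (MonoidAlgebra k G ⧸ (Ring.jacobson (MonoidAlgebra k G)).restrictScalars k) :=
    Submodule.Quotient.nontrivial_iff.2 h
  exact Module.finrank_pos

/-- a minimal normal subgroup inside a normal subgroup -/
theorem exists_min {G : Type} [Group G] [Finite G] (N : Subgroup G) [hN : N.Normal] (hne : N ≠ ⊥) :
    ∃ M : Subgroup G, M.Normal ∧ M ≤ N ∧ M ≠ ⊥ ∧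
      ∀ L : Subgroup G, L.Normal → L ≤ M → L = ⊥ ∨ L = M := by
  classical
  have hex : ∃ c : ℕ, ∃ M : Subgroup G, M.Normal ∧ M ≤ N ∧ M ≠ ⊥ ∧ Nat.card M = c :=
    ⟨_, N, hN, le_rfl, hne, rfl⟩
  obtain ⟨M, hM, hMN, hb, hc⟩ := Nat.find_spec hex
  refine ⟨M, hM, hMN, hb, fun L hL hLM => ?_⟩
  by_contra hcon
  push Not at hcon
  have h1 : Nat.card L < Nat.card M := by
    refine lt_of_le_of_ne (Subgroup.card_le_of_le hLM) fun h => hcon.2 ?_
    exact Subgroup.eq_of_le_of_card_ge hLM h.ge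
  rw [hc] at h1
  exact Nat.find_min hex h1 ⟨L, hL, hLM.trans hMN, hcon.1, rfl⟩

/-- `1 = H 0 ⊲ H 1 ⊲ ... ⊲ H r = N`, and the factor `H (i+1) / H i` is isomorphic to the alternating group of
degree `d i` for all `i ∈ I`. -/
def SerN {G : Type} [Group G] (N : Subgroup G) (r : ℕ) (H : ℕ → Subgroup G) (I : Finset ℕ)
    (d : ℕ → ℕ) : Prop :=
  H 0 = ⊥ ∧ H r = N ∧
  (∀ i < r, H i ≤ H (i + 1) ∧ ((H i).subgroupOf (H (i + 1))).Normal) ∧
  ∀ i ∈ I, i < r ∧ ∃ f : H (i + 1) →* alternatingGroup (Fin (d i)),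
    Function.Surjective f ∧ f.ker = (H i).subgroupOf (H (i + 1))

/-- the series continued by the group -/
theorem SerN.ser {G : Type} [Group G] {N : Subgroup G} [N.Normal] {r : ℕ} {H : ℕ → Subgroup G}
    {I : Finset ℕ} {d : ℕ → ℕ} (h : SerN N r H I d) (H' : ℕ → Subgroup G)
    (h1 : ∀ i ≤ r, H' i = H i) (h2 : H' (r + 1) = ⊤) : Ser (r + 1) H' I d := by
  obtain ⟨h0, hr, hn, hI⟩ := h
  refine ⟨?_, h2, ?_, ?_⟩
  · rw [h1 0 (Nat.zero_le r), h0]
  · intro i hi
    rcases Nat.lt_or_ge i r with h3 | h3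
    · rw [h1 i h3.le, h1 (i + 1) (by omega)]
      exact hn i h3
    · have h4 : i = r := by omega
      subst h4
      rw [h1 i le_rfl, h2, hr]
      exact ⟨le_top, inferInstance⟩
  · intro i hi
    obtain ⟨h3, f, hf, hk⟩ := hI i hi
    rw [h1 i h3.le, h1 (i + 1) (by omega)]
    exact ⟨by omega, f, hf, hk⟩

theorem SerN.of_ser {G : Type} [Group G] {N : Subgroup G} {r : ℕ} {H : ℕ → Subgroup G}
    {I : Finset ℕ} {d : ℕ → ℕ} (h : Ser (r + 1) H I d) (hr : H r = N) (hI : ∀ i ∈ I, i < r) :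
    SerN N r H I d :=
  ⟨h.1, hr, fun i hi => h.2.2.1 i (by omega), fun i hi => ⟨hI i hi, (h.2.2.2 i hi).2⟩⟩

theorem series_lower (p : ℕ) [hpf : Fact p.Prime] :
    ∃ n₀ : ℕ, ∀ (k : Type) [Field k] [CharP k p] (c : ℕ) (G : Type)
      [Group G] [Finite G] (N : Subgroup G) [N.Normal], Nat.card N = c →
      ∀ (r : ℕ) (H : ℕ → Subgroup G) (I : Finset ℕ) (d : ℕ → ℕ),
      SerN N r H I d → (∀ i ∈ I, n₀ ≤ d i) →
      (∏ i ∈ I, aa p (d i)) * ssDim k (G ⧸ N) ≤ ssDim k G := by
  classical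
  have hp : p.Prime := hpf.out
  obtain ⟨n₁, h1⟩ := one_step p
  obtain ⟨n₂, h2⟩ := val1 hp
  refine ⟨max n₁ (max n₂ 5), fun k _ _ c => ?_⟩
  induction c using Nat.strong_induction_on with
  | _ c IH =>
  intro G _ _ N hNn hc r H I d hS hd
  have hd1 : ∀ i ∈ I, n₁ ≤ d i := fun i hi => (le_max_left _ _).trans (hd i hi)
  have hd2 : ∀ i ∈ I, n₂ ≤ d i := fun i hi =>
    (le_max_left _ _).trans ((le_max_right _ _).trans (hd i hi))
  have hd3 : ∀ i ∈ I, 5 ≤ d i := fun i hi =>
    (le_max_right _ _).trans ((le_max_right _ _).trans (hd i hi))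
  have haa1 : ∀ n, 5 ≤ n → n₂ ≤ n → 1 ≤ aa p n := by
    intro n hn hn2
    rw [aa]
    refine le_trans ?_ (h2 n hn2)
    have e1 : (1 : ℝ) ≤ (pPrimePart p n.factorial : ℝ) := by
      exact_mod_cast pPrimePart_pos p (Nat.factorial_ne_zero n)
    have e2 : (1 : ℝ) ≤ exp ((n : ℝ) * log p / p) := by
      apply Real.one_le_exp
      have : 0 ≤ log (p : ℝ) := Real.log_natCast_nonneg p
      positivity
    nlinarith
  by_cases hne : N = ⊥
  · -- the trivial group
    have hI : I = ∅ := by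
      rw [Finset.eq_empty_iff_forall_notMem]
      intro i hi
      obtain ⟨hir, f, hf, _⟩ := hS.2.2.2 i hi
      obtain ⟨a, ha⟩ := exists_ne (n := d i) (by have := hd3 i hi; omega)
      obtain ⟨x, hx⟩ := hf a
      apply ha
      have hmono : ∀ j, j ≤ r → H j ≤ N := by
        intro j hj
        induction hj using Nat.decreasingInduction with
        | self => exact hS.2.1.le
        | of_succ j hj ih => exact (hS.2.2.1 j (by omega)).1.trans ih
      have hx1 : x = 1 := by
        have h3 := hmono (i + 1) (by omega) x.2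
        rw [hne, Subgroup.mem_bot] at h3
        exact Subtype.ext h3
      rw [← hx, hx1, map_one]
    rw [hI, Finset.prod_empty, one_mul]
    exact_mod_cast ssDim_le_of_surjective (QuotientGroup.mk' N) (QuotientGroup.mk'_surjective N)
  · obtain ⟨M, hM, hMN, hb, hmin⟩ := exists_min N hne
    obtain ⟨T, _, _, m, ⟨e⟩⟩ := min_struct M hb hmin
    obtain ⟨H', hH'1, hH'2⟩ : ∃ H' : ℕ → Subgroup G, (∀ i ≤ r, H' i = H i) ∧ H' (r + 1) = ⊤ :=
      ⟨fun i => if i ≤ r then H i else ⊤, fun i hi => if_pos hi, if_neg (by omega)⟩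
    have hSG := hS.ser H' hH'1 hH'2
    have hH'r : H' r = N := by rw [hH'1 r le_rfl]; exact hS.2.1
    have hir : ∀ i ∈ I, i < r := fun i hi => (hS.2.2.2 i hi).1
    have hN' : (N.map (QuotientGroup.mk' M)).Normal := QuotientGroup.map_normal M N
    have hcM : Nat.card (N.map (QuotientGroup.mk' M) : Subgroup (G ⧸ M)) * Nat.card M = c := by
      let φ : N →* G ⧸ M := (QuotientGroup.mk' M).comp N.subtype
      have hker : φ.ker = M.subgroupOf N := by
        ext x
        rw [MonoidHom.mem_ker, Subgroup.mem_subgroupOf]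
        exact QuotientGroup.eq_one_iff (x : G)
      have hran : φ.range = N.map (QuotientGroup.mk' M) := by
        rw [MonoidHom.range_comp, Subgroup.range_subtype]
      have e1 : Nat.card (N ⧸ φ.ker) = Nat.card (N.map (QuotientGroup.mk' M) : Subgroup (G ⧸ M)) := by
        rw [← hran]
        exact Nat.card_congr (QuotientGroup.quotientKerEquivRange φ).toEquiv
      have e2 : Nat.card φ.ker = Nat.card M := by
        rw [hker]
        exact Nat.card_congr (Subgroup.subgroupOfEquivOfLe hMN).toEquiv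
      rw [← hc, φ.ker.card_eq_card_quotient_mul_card_subgroup, e1, e2]
    have hlt : Nat.card (N.map (QuotientGroup.mk' M) : Subgroup (G ⧸ M)) < c := by
      have e1 : 1 < Nat.card M := by
        rw [Finite.one_lt_card_iff_nontrivial, Subgroup.nontrivial_iff_ne_bot]
        exact hb
      have e2 : 0 < Nat.card (N.map (QuotientGroup.mk' M) : Subgroup (G ⧸ M)) := Nat.card_pos
      nlinarith
    have hSa := ser_quot hSG M (I.filter fun i => H' (i + 1) ⊓ M ≤ H' i) (fun i hi => by
      rw [Finset.mem_filter] at hi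
      exact hi)
    have hSa' := SerN.of_ser (N := N.map (QuotientGroup.mk' M)) hSa (by
      simp only [hH'r]) (fun i hi => hir i (Finset.mem_filter.1 hi).1)
    have hIH := IH _ hlt (G ⧸ M) (N.map (QuotientGroup.mk' M)) rfl r _ _ d hSa'
      (fun i hi => hd i (Finset.mem_filter.1 hi).1)
    rw [ssDim_congr (QuotientGroup.quotientQuotientEquivQuotient M N hMN)] at hIH
    have hsplit : ∏ i ∈ I, aa p (d i) = (∏ i ∈ I.filter (fun i => H' (i + 1) ⊓ M ≤ H' i), aa p (d i)) *
        ∏ i ∈ I.filter (fun i => ¬ H' (i + 1) ⊓ M ≤ H' i), aa p (d i) :=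
      (Finset.prod_filter_mul_prod_filter_not I _ _).symm
    have hquo : (ssDim k (G ⧸ M) : ℝ) ≤ ssDim k G := by
      exact_mod_cast ssDim_le_of_surjective (QuotientGroup.mk' M) (QuotientGroup.mk'_surjective M)
    set Ib := I.filter (fun i => ¬ H' (i + 1) ⊓ M ≤ H' i) with hIb
    rcases Finset.eq_empty_or_nonempty Ib with hem | ⟨i0, hi0⟩
    · rw [hsplit, hem, Finset.prod_empty, mul_one]
      exact hIH.trans hquo
    · have hmem : ∀ i ∈ Ib, i ∈ I ∧ 5 ≤ d i ∧ ¬ H' (i + 1) ⊓ M ≤ H' i := by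
        intro i hi
        rw [hIb, Finset.mem_filter] at hi
        exact ⟨hi.1, hd3 i hi.1, hi.2⟩
      have hjh : ∀ i ∈ Ib, Nonempty (T ≃* alternatingGroup (Fin (d i))) := fun i hi =>
        jh hSG M e i (hmem i hi).1 (hmem i hi).2.1 (hmem i hi).2.2
      obtain ⟨t0⟩ := hjh i0 hi0
      have hdeg : ∀ i ∈ Ib, d i = d i0 := by
        intro i hi
        obtain ⟨t⟩ := hjh i hi
        apply deg_inj (by have := (hmem i hi).2.1; omega) (by have := (hmem i0 hi0).2.1; omega)
        rw [← Nat.card_congr t.toEquiv, Nat.card_congr t0.toEquiv]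
      set n := d i0 with hn
      have hn5 : 5 ≤ n := (hmem i0 hi0).2.1
      have hn1 : n₁ ≤ n := hd1 i0 (hmem i0 hi0).1
      have hn2 : n₂ ≤ n := hd2 i0 (hmem i0 hi0).1
      have e' : M ≃* (Fin m → alternatingGroup (Fin n)) := e.trans (MulEquiv.piCongrRight fun _ => t0)
      have hcnt := count hSG M Ib hmem
      have hcN : Nat.card M = Nat.card (alternatingGroup (Fin n)) ^ m := by
        rw [Nat.card_congr e'.toEquiv, Nat.card_fun, Nat.card_fin]
      have hpr : ∏ i ∈ Ib, Nat.card (alternatingGroup (Fin (d i))) =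
          Nat.card (alternatingGroup (Fin n)) ^ Ib.card := by
        rw [Finset.prod_congr rfl fun i hi => by rw [hdeg i hi], Finset.prod_const]
      have hA1 : 1 < Nat.card (alternatingGroup (Fin n)) := by
        obtain ⟨a, ha⟩ := exists_ne (n := n) (by omega)
        have : Nontrivial (alternatingGroup (Fin n)) := ⟨a, 1, ha⟩
        exact Finite.one_lt_card
      rw [hpr, hcN] at hcnt
      have hle : Ib.card ≤ m := (Nat.pow_le_pow_iff_right hA1).1 hcnt
      have h3 : aa p n ^ m * (ssDim k (G ⧸ M) : ℝ) ≤ ssDim k G := h1 n hn1 m k G M ⟨e'⟩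
      have h4 : ∏ i ∈ Ib, aa p (d i) ≤ aa p n ^ m := by
        rw [Finset.prod_congr rfl fun i hi => by rw [hdeg i hi], Finset.prod_const]
        exact pow_le_pow_right₀ (haa1 n hn5 hn2) hle
      rw [hsplit]
      have h5 : 0 ≤ ∏ i ∈ Ib, aa p (d i) :=
        Finset.prod_nonneg fun i hi => le_trans zero_le_one (haa1 _ (hmem i hi).2.1 (hd2 i (hmem i hi).1))
      calc (∏ i ∈ I.filter (fun i => H' (i + 1) ⊓ M ≤ H' i), aa p (d i)) * (∏ i ∈ Ib, aa p (d i)) *
            ssDim k (G ⧸ N)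
          = ((∏ i ∈ I.filter (fun i => H' (i + 1) ⊓ M ≤ H' i), aa p (d i)) * ssDim k (G ⧸ N)) *
            (∏ i ∈ Ib, aa p (d i)) := by ring
        _ ≤ (ssDim k (G ⧸ M) : ℝ) * aa p n ^ m := mul_le_mul hIH h4 h5 (Nat.cast_nonneg _)
        _ = aa p n ^ m * ssDim k (G ⧸ M) := mul_comm _ _
        _ ≤ ssDim k G := h3

theorem pPrimePart_prod (p : ℕ) (I : Finset ℕ) (f : ℕ → ℕ) :
    pPrimePart p (∏ i ∈ I, f i) = ∏ i ∈ I, pPrimePart p (f i) := by
  classical
  induction I using Finset.induction_on with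
  | empty => simp [pPrimePart]
  | insert i I hi ih => rw [Finset.prod_insert hi, Finset.prod_insert hi, pPrimePart_mul, ih]

/-- the order of the normal subgroup -/
theorem card_serN {G : Type} [Group G] [Finite G] {N : Subgroup G} {r : ℕ} {H : ℕ → Subgroup G}
    {I : Finset ℕ} {d : ℕ → ℕ} (h : SerN N r H I d) :
    (∏ i ∈ I, Nat.card (alternatingGroup (Fin (d i)))) ∣ Nat.card N := by
  classical
  have key : ∀ l, l ≤ r → (∏ i ∈ I.filter (· < l), Nat.card (alternatingGroup (Fin (d i)))) ∣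
      Nat.card (H l) := by
    intro l
    induction l with
    | zero => intro _; simp
    | succ l ih =>
      intro hl
      obtain ⟨hle, hnor⟩ := h.2.2.1 l (by omega)
      have h1 := ih (by omega)
      have h2 : Nat.card (H (l + 1)) = ((H l).subgroupOf (H (l + 1))).index * Nat.card (H l) := by
        rw [← Nat.card_congr (Subgroup.subgroupOfEquivOfLe hle).toEquiv,
          Subgroup.index_mul_card]
      by_cases hlI : l ∈ I
      · have h3 : I.filter (· < l + 1) = insert l (I.filter (· < l)) := by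
          ext i
          simp only [Finset.mem_filter, Finset.mem_insert]
          constructor
          · rintro ⟨h4, h5⟩
            rcases Nat.lt_or_ge i l with h6 | h6
            · exact Or.inr ⟨h4, h6⟩
            · exact Or.inl (by omega)
          · rintro (rfl | ⟨h4, h5⟩)
            · exact ⟨hlI, by omega⟩
            · exact ⟨h4, by omega⟩
        rw [h3, Finset.prod_insert (by simp), h2]
        obtain ⟨_, f, hf, hk⟩ := h.2.2.2 l hlI
        have h7 : ((H l).subgroupOf (H (l + 1))).index =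
            Nat.card (alternatingGroup (Fin (d l))) := by
          rw [← hk, Subgroup.index_ker, MonoidHom.range_eq_top.2 hf, Subgroup.card_top]
        rw [h7]
        exact Nat.mul_dvd_mul_left _ h1
      · have h3 : I.filter (· < l + 1) = I.filter (· < l) := by
          ext i
          simp only [Finset.mem_filter]
          constructor
          · rintro ⟨h4, h5⟩
            exact ⟨h4, lt_of_le_of_ne (by omega) fun e => hlI (e ▸ h4)⟩
          · rintro ⟨h4, h5⟩
            exact ⟨h4, by omega⟩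
        rw [h3, h2]
        exact Dvd.dvd.mul_left h1 _
  have h1 := key r le_rfl
  have h2 : I.filter (· < r) = I := Finset.filter_true_of_mem fun i hi => (h.2.2.2 i hi).1
  rw [h2, h.2.1] at h1
  exact h1

/-- **Theorem.** -/
theorem series_willems (p : ℕ) [hpf : Fact p.Prime] :
    ∃ n₀ : ℕ, ∀ (k : Type) [Field k] [CharP k p] (G : Type)
      [Group G] [Finite G] (N : Subgroup G) [N.Normal]
      (r : ℕ) (H : ℕ → Subgroup G) (I : Finset ℕ) (d : ℕ → ℕ),
      SerN N r H I d → (∀ i ∈ I, n₀ ≤ d i) →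
      (∏ i ∈ I, aa p (d i)) * ssDim k (G ⧸ N) ≤ ssDim k G ∧
      ∀ R : ℕ, Nat.card N = R * ∏ i ∈ I, Nat.card (alternatingGroup (Fin (d i))) →
        pPrimePart p R ^ p ≤ p ^ (∑ i ∈ I, d i) →
        pPrimePart p (Nat.card N) * ssDim k (G ⧸ N) ≤ ssDim k G := by
  classical
  have hp : p.Prime := hpf.out
  obtain ⟨n₁, h1⟩ := series_lower p
  obtain ⟨n₂, h2⟩ := val1 hp
  refine ⟨max n₁ (max n₂ 2), fun k _ _ G _ _ N _ r H I d hS hd => ?_⟩
  have hd1 : ∀ i ∈ I, n₁ ≤ d i := fun i hi => (le_max_left _ _).trans (hd i hi)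
  have hd2 : ∀ i ∈ I, n₂ ≤ d i := fun i hi =>
    (le_max_left _ _).trans ((le_max_right _ _).trans (hd i hi))
  have hd3 : ∀ i ∈ I, 2 ≤ d i := fun i hi =>
    (le_max_right _ _).trans ((le_max_right _ _).trans (hd i hi))
  have hL := h1 k _ G N rfl r H I d hS hd1
  refine ⟨hL, fun R hR hz => ?_⟩
  have hfac : ∀ i ∈ I, (pPrimePart p (Nat.card (alternatingGroup (Fin (d i)))) : ℝ) *
      exp ((d i : ℝ) * log p / p) ≤ aa p (d i) := by
    intro i hi
    have : Nontrivial (Fin (d i)) := Fin.nontrivial_iff_two_le.2 (hd3 i hi)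
    have h := two_mul_nat_card_alternatingGroup (α := Fin (d i))
    rw [Nat.card_perm, Nat.card_fin] at h
    have h3 : pPrimePart p (Nat.card (alternatingGroup (Fin (d i)))) ≤
        pPrimePart p (d i).factorial := by
      rw [← h, pPrimePart_mul]
      exact Nat.le_mul_of_pos_left _ (pPrimePart_pos p two_ne_zero)
    have h4 := h2 (d i) (hd2 i hi)
    refine le_trans (mul_le_mul_of_nonneg_right ?_ (exp_pos _).le) h4
    exact_mod_cast h3
  set z := pPrimePart p R with hzdef
  have hzle : (z : ℝ) ≤ ∏ i ∈ I, exp ((d i : ℝ) * log p / p) := by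
    have hp0 : (p : ℝ) ≠ 0 := by exact_mod_cast hp.ne_zero
    have h3 : (z : ℝ) ^ p ≤ (∏ i ∈ I, exp ((d i : ℝ) * log p / p)) ^ p := by
      have h4 : ((∏ i ∈ I, exp ((d i : ℝ) * log p / p)) ^ p : ℝ) =
          (p : ℝ) ^ (∑ i ∈ I, d i) := by
        rw [← Real.exp_sum, ← Real.exp_nat_mul]
        have h5 : (p : ℝ) * (∑ i ∈ I, (d i : ℝ) * log p / p) =
            ((∑ i ∈ I, d i : ℕ) : ℝ) * log p := by
          push_cast
          rw [Finset.mul_sum, Finset.sum_mul]
          refine Finset.sum_congr rfl fun i _ => ?_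
          field_simp
        rw [h5, Real.exp_nat_mul, Real.exp_log (by exact_mod_cast hp.pos)]
      rw [h4]
      exact_mod_cast hz
    exact le_of_pow_le_pow_left₀ hp.ne_zero
      (Finset.prod_nonneg fun i _ => (exp_pos _).le) h3
  have h6 : (pPrimePart p (Nat.card N) : ℝ) ≤ ∏ i ∈ I, aa p (d i) := by
    rw [hR, pPrimePart_mul, pPrimePart_prod, ← hzdef]
    push_cast
    calc (z : ℝ) * ∏ i ∈ I, (pPrimePart p (Nat.card (alternatingGroup (Fin (d i)))) : ℝ)
        ≤ (∏ i ∈ I, exp ((d i : ℝ) * log p / p)) *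
            ∏ i ∈ I, (pPrimePart p (Nat.card (alternatingGroup (Fin (d i)))) : ℝ) :=
          mul_le_mul_of_nonneg_right hzle (Finset.prod_nonneg fun i _ => Nat.cast_nonneg _)
      _ = ∏ i ∈ I, ((pPrimePart p (Nat.card (alternatingGroup (Fin (d i)))) : ℝ) *
            exp ((d i : ℝ) * log p / p)) := by
          rw [← Finset.prod_mul_distrib]
          exact Finset.prod_congr rfl fun i _ => mul_comm _ _
      _ ≤ _ := Finset.prod_le_prod (fun i _ => mul_nonneg (Nat.cast_nonneg _) (exp_pos _).le) hfac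
  have h7 := (mul_le_mul_of_nonneg_right h6 (Nat.cast_nonneg (ssDim k (G ⧸ N)))).trans hL
  exact_mod_cast h7

end Pool.Agent.Wnx
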